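import Pool.Agent.Helper99.TreeingLimit

/-!
# Borel families of blocks
-/

namespace Pool.Agent.Helper99.Treeing

open SimpleGraph MeasureTheory

variable {X : Type*} [MeasurableSpace X]

/-- The adjacency relation is a measurable set of pairs. -/
def MGraph (G : SimpleGraph X) : Prop := Measurable fun p : X × X => G.Adj p.1 p.2

/-- Measurability of a family of blocks, with measurable maps recovering the centre. -/
structure MBlocks {k : ℕ} (b : Blocks X k) (h : Fin k → X → X) : Prop where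
  mD : Measurable fun x => x ∈ b.D
  mg : ∀ i, Measurable (b.g i)
  mh : ∀ i, Measurable (h i)
  hg : ∀ x ∈ b.D, ∀ i, h i (b.g i x) = x

lemma measurable_tr {k : ℕ} {b : Blocks X k} {h : Fin k → X → X} (hb : MBlocks b h)
    {T G : SimpleGraph X} (hT : MGraph T) (hG : MGraph G)
    (Φ : SimpleGraph (Fin k) → SimpleGraph (Fin k) → Prop) :
    Measurable fun x => Φ (b.tr T x) (b.tr G x) := by
  have hadj : ∀ {H : SimpleGraph X}, MGraph H → ∀ i j, Measurable fun x => H.Adj (b.g i x) (b.g j x) :=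
    fun hH i j => hH.comp ((hb.mg i).prodMk (hb.mg j))
  have hfin : Finite (SimpleGraph (Fin k)) := inferInstance
  have heq : (fun x => Φ (b.tr T x) (b.tr G x)) = fun x => ∃ P Q : SimpleGraph (Fin k), Φ P Q ∧
      (∀ i j, (T.Adj (b.g i x) (b.g j x) ↔ P.Adj i j)) ∧
      (∀ i j, (G.Adj (b.g i x) (b.g j x) ↔ Q.Adj i j)) := by
    funext x
    apply propext
    constructor
    · intro hx
      exact ⟨_, _, hx, fun i j => Iff.rfl, fun i j => Iff.rfl⟩
    · rintro ⟨P, Q, hx, hP, hQ⟩
      have h1 : b.tr T x = P := by ext i j; exact hP i j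
      have h2 : b.tr G x = Q := by ext i j; exact hQ i j
      rw [h1, h2]; exact hx
  rw [heq]
  refine Measurable.exists fun P => Measurable.exists fun Q => ?_
  refine Measurable.and measurable_const (Measurable.and ?_ ?_)
  · exact Measurable.forall fun i => Measurable.forall fun j => (hadj hT i j).iff measurable_const
  · exact Measurable.forall fun i => Measurable.forall fun j => (hadj hG i j).iff measurable_const

variable [StandardBorelSpace X]

lemma measurable_exists_block {k : ℕ} {b : Blocks X k} {h : Fin k → X → X} (hb : MBlocks b h)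
    {T G : SimpleGraph X} (hT : MGraph T) (hG : MGraph G)
    (Φ : SimpleGraph (Fin k) → SimpleGraph (Fin k) → Fin k → Fin k → Prop) :
    Measurable fun p : X × X => ∃ x, b.Active T G x ∧ ∃ i j, p.1 = b.g i x ∧ p.2 = b.g j x ∧
      Φ (b.tr T x) (b.tr G x) i j := by
  have heq : (fun p : X × X => ∃ x, b.Active T G x ∧ ∃ i j, p.1 = b.g i x ∧ p.2 = b.g j x ∧
      Φ (b.tr T x) (b.tr G x) i j) = fun p : X × X => ∃ i j, h i p.1 ∈ b.D ∧
        ((b.tr T (h i p.1)).Connected ∧ (b.tr G (h i p.1)).Connected ∧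
          Φ (b.tr T (h i p.1)) (b.tr G (h i p.1)) i j) ∧
        p.1 = b.g i (h i p.1) ∧ p.2 = b.g j (h i p.1) := by
    funext p
    apply propext
    constructor
    · rintro ⟨x, hx, i, j, h1, h2, h3⟩
      have h4 : h i p.1 = x := by rw [h1]; exact hb.hg x hx.1 i
      refine ⟨i, j, ?_⟩
      rw [h4]
      exact ⟨hx.1, ⟨hx.2.1, hx.2.2, h3⟩, h1, h2⟩
    · rintro ⟨i, j, h1, ⟨h2, h3, h4⟩, h5, h6⟩
      exact ⟨h i p.1, ⟨h1, h2, h3⟩, i, j, h5, h6, h4⟩
  rw [heq]
  refine Measurable.exists fun i => Measurable.exists fun j => ?_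
  have hhi : Measurable fun p : X × X => h i p.1 := (hb.mh i).comp measurable_fst
  refine Measurable.and (hb.mD.comp hhi) (Measurable.and ?_ (Measurable.and ?_ ?_))
  · exact (measurable_tr hb hT hG (fun P Q => P.Connected ∧ Q.Connected ∧ Φ P Q i j)).comp hhi
  · exact Measurable.eq measurable_fst ((hb.mg i).comp hhi)
  · exact Measurable.eq measurable_snd ((hb.mg j).comp hhi)

lemma measurable_step {k : ℕ} {b : Blocks X k} {h : Fin k → X → X} (hb : MBlocks b h)
    {T G : SimpleGraph X} (hT : MGraph T) (hG : MGraph G) : MGraph (b.step T G) := by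
  have h1 := measurable_exists_block hb hT hG (fun P Q i j => (spanTree P Q).Adj i j)
  have h2 := measurable_exists_block hb hT hG (fun _ _ _ _ => True)
  have heq : (fun p : X × X => (b.step T G).Adj p.1 p.2) = fun p : X × X =>
      (∃ x, b.Active T G x ∧ ∃ i j, p.1 = b.g i x ∧ p.2 = b.g j x ∧
        (spanTree (b.tr T x) (b.tr G x)).Adj i j) ∨ (T.Adj p.1 p.2 ∧
      ¬ (∃ x, b.Active T G x ∧ ∃ i j, p.1 = b.g i x ∧ p.2 = b.g j x ∧ True)) := by
    funext p
    simp only [Blocks.step, sup_adj, Blocks.SG, Blocks.BG, Blocks.InBlock, and_true]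
  unfold MGraph
  rw [heq]
  exact h1.or (hT.and h2.not)

/-- colours -/
abbrev Col := Σ k : ℕ, Σ N : ℕ, (Fin (k + 1) → Fin N → Bool) × (Fin (k + 1) → Fin (k + 1) → ℕ)

variable (φ : X → ℕ → Bool) (f : ℕ → X → X)

/-- The blocks of a given colour. -/
def blk (c : Col) : Blocks X (c.1 + 1) where
  D := {x | f (c.2.2.2 0 0) x = x ∧
    (∀ i j, f (c.2.2.2 i j) (f (c.2.2.2 0 i) x) = f (c.2.2.2 0 j) x) ∧
    (∀ i (t : Fin c.2.1), φ (f (c.2.2.2 0 i) x) t = c.2.2.1 i t) ∧ Function.Injective c.2.2.1}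
  g i x := f (c.2.2.2 0 i) x
  inj := by
    rintro x ⟨hx1, hx2, hx3, hinj⟩ y ⟨hy1, hy2, hy3, _⟩ i j hij
    have h1 : i = j := by
      apply hinj
      funext t
      rw [← hx3 i t, ← hy3 j t, hij]
    subst h1
    refine ⟨?_, rfl⟩
    rw [← hx1, ← hy1, ← hx2 i 0, ← hy2 i 0, hij]

variable {φ f}

lemma blk_mblocks (hφ : Measurable φ) (hf : ∀ n, Measurable (f n)) (c : Col) :
    MBlocks (blk φ f c) (fun i => f (c.2.2.2 i 0)) where
  mD := by
    have hφ' : ∀ t, Measurable fun x => φ x t := fun t => (measurable_pi_iff.1 hφ) t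
    show Measurable fun x => (f (c.2.2.2 0 0) x = x ∧
      (∀ i j, f (c.2.2.2 i j) (f (c.2.2.2 0 i) x) = f (c.2.2.2 0 j) x) ∧
      (∀ i (t : Fin c.2.1), φ (f (c.2.2.2 0 i) x) t = c.2.2.1 i t) ∧ Function.Injective c.2.2.1)
    refine ((hf _).eq measurable_id).and (Measurable.and ?_ (Measurable.and ?_ measurable_const))
    · exact Measurable.forall fun i => Measurable.forall fun j =>
        Measurable.eq ((hf _).comp (hf _)) (hf _)
    · exact Measurable.forall fun i => Measurable.forall fun t =>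
        Measurable.eq ((hφ' t).comp (hf _)) measurable_const
  mg i := hf _
  mh i := hf _
  hg := by
    rintro x ⟨hx1, hx2, _⟩ i
    show f (c.2.2.2 i 0) (f (c.2.2.2 0 i) x) = x
    rw [hx2 i 0, hx1]

/-- Every finite nonempty subset of a class is a block of some colour. -/
lemma exists_col (hφ : Function.Injective φ) {R : Set X} (hR : R.Finite) (hne : R.Nonempty)
    (hE : ∀ u ∈ R, ∀ v ∈ R, ∃ n, f n u = v) :
    ∃ c : Col, ∃ x ∈ (blk φ f c).D, Set.range (fun i => (blk φ f c).g i x) = R := by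
  classical
  obtain ⟨s, rfl⟩ : ∃ s : Finset X, (s : Set X) = R := ⟨hR.toFinset, by simp⟩
  have hcard : 0 < s.card := Finset.card_pos.2 (by simpa using hne)
  obtain ⟨k, hk⟩ : ∃ k, s.card = k + 1 := ⟨s.card - 1, by omega⟩
  let e : Fin (k + 1) ≃ s := (s.equivFinOfCardEq hk).symm
  let a : Fin (k + 1) → X := fun i => (e i : X)
  have ha : Function.Injective a := fun i j h => e.injective (Subtype.ext h)
  have hra : Set.range a = s := by
    ext x
    constructor
    · rintro ⟨i, rfl⟩; exact (e i).2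
    · intro hx
      exact ⟨e.symm ⟨x, hx⟩, by simp [a]⟩
  have hE' : ∀ i j, ∃ n, f n (a i) = a j := fun i j => hE _ (e i).2 _ (e j).2
  choose n hn using hE'
  -- a separating length
  have hsep : ∃ N : ℕ, ∀ i j, i ≠ j → ∃ t : Fin N, φ (a i) t ≠ φ (a j) t := by
    have h1 : ∀ i j, ∃ N : ℕ, i ≠ j → φ (a i) N ≠ φ (a j) N := by
      intro i j
      by_cases hij : i = j
      · exact ⟨0, fun h => absurd hij h⟩
      · have h2 : φ (a i) ≠ φ (a j) := fun h => hij (ha (hφ h))
        obtain ⟨N, hN⟩ := Function.ne_iff.1 h2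
        exact ⟨N, fun _ => hN⟩
    choose N hN using h1
    refine ⟨(Finset.univ.sup fun i => Finset.univ.sup fun j => N i j) + 1, fun i j hij => ?_⟩
    have h3 : N i j ≤ Finset.univ.sup fun i => Finset.univ.sup fun j => N i j :=
      (Finset.le_sup (f := fun j => N i j) (Finset.mem_univ j)).trans
        (Finset.le_sup (f := fun i => Finset.univ.sup fun j => N i j) (Finset.mem_univ i))
    exact ⟨⟨N i j, Nat.lt_succ_of_le h3⟩, hN i j hij⟩
  obtain ⟨N, hN⟩ := hsep
  refine ⟨⟨k, N, fun i t => φ (a i) t, n⟩, a 0, ?_, ?_⟩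
  · refine ⟨hn 0 0, ?_, ?_, ?_⟩
    · intro i j
      show f (n i j) (f (n 0 i) (a 0)) = f (n 0 j) (a 0)
      rw [hn 0 i, hn i j, hn 0 j]
    · intro i t
      show φ (f (n 0 i) (a 0)) t = φ (a i) t
      rw [hn 0 i]
    · intro i j hij
      by_contra hne
      obtain ⟨t, ht⟩ := hN i j hne
      exact ht (congrFun hij t)
  · rw [← hra]
    congr 1
    funext i
    exact hn 0 i

/-- A sequence of colours visiting every colour infinitely often. -/
lemma exists_schedule : ∃ c : ℕ → Col, ∀ κ M, ∃ m, M ≤ m ∧ c m = κ := by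
  have : Nonempty Col := ⟨⟨0, 0, fun _ t => t.elim0, fun _ _ => 0⟩⟩
  obtain ⟨e, he⟩ := exists_surjective_nat Col
  refine ⟨fun m => e (Nat.unpair m).1, fun κ M => ?_⟩
  obtain ⟨a, ha⟩ := he κ
  refine ⟨Nat.pair a M, Nat.right_le_pair a M, ?_⟩
  simp [ha]

lemma measurable_lim {T : ℕ → SimpleGraph X} (h : ∀ m, MGraph (T m)) : MGraph (lim T) := by
  unfold MGraph
  refine Measurable.exists fun M => Measurable.forall fun m => Measurable.imp measurable_const (h m)

/-- Main construction: from a Borel forest `T₀` whose edges lie in finite sets connected for `T₀`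
and `G`, a Borel forest inside `G` with the same components. -/
theorem exists_treeing (f : ℕ → X → X) (hf : ∀ n, Measurable (f n)) {G T₀ : SimpleGraph X}
    (hG : MGraph G) (hT₀ : MGraph T₀) (hac : T₀.IsAcyclic)
    (hE : ∀ u v, T₀.Reachable u v → ∃ n, f n u = v)
    (hcov : ∀ u v, T₀.Adj u v → ∃ R : Set X, R.Finite ∧ u ∈ R ∧ v ∈ R ∧ ConnOn T₀ R ∧ ConnOn G R) :
    ∃ T : SimpleGraph X, MGraph T ∧ T.IsAcyclic ∧ (∀ u v, T.Reachable u v ↔ T₀.Reachable u v) ∧
      T₀ ⊓ G ≤ T ∧ T ≤ G := by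
  obtain ⟨φ, hφm, hφ⟩ := MeasurableSpace.measurable_injection_nat_bool_of_countablySeparated X
  obtain ⟨c, hc⟩ := exists_schedule
  let b : ℕ → Σ k, Blocks X k := fun m => ⟨(c m).1 + 1, blk φ f (c m)⟩
  have hch := proc_chain (G := G) hac b
  have hm : ∀ m, MGraph (proc G T₀ b m) := by
    intro m
    induction m with
    | zero => exact hT₀
    | succ m ih => exact measurable_step (blk_mblocks hφm hf (c m)) ih hG
  refine ⟨lim (proc G T₀ b), measurable_lim hm, hch.lim_acyclic, hch.lim_reach_iff,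
    hch.inf_le_lim 0, ?_⟩
  refine lim_le hac ?_ hcov
  intro R hR hne hcl M
  obtain ⟨κ, x, hx, hr⟩ := exists_col (φ := φ) (f := f) hφ hR hne
    (fun u hu v hv => hE u v (hcl u hu v hv))
  obtain ⟨m, hMm, hm'⟩ := hc κ M
  refine ⟨m, hMm, ?_⟩
  subst hm'
  exact ⟨x, hx, hr⟩

end Pool.Agent.Helper99.Treeing
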