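import Pool.Agent.Helper99.ChordlessComb
import Pool.Agent.Helper99.TreeingBorel

/-!
# Borel spanning forests from a rank function with a unique top on every chordless cycle
-/

namespace Pool.Agent.Helper99.Treeing

open SimpleGraph MeasureTheory

variable {X : Type*} [MeasurableSpace X] [StandardBorelSpace X]

/-- Reachability in `n` steps, through the enumeration `f`. -/
def Steps (H : SimpleGraph X) (f : ℕ → X → X) : ℕ → X → X → Prop
  | 0, u, v => u = v
  | n + 1, u, v => ∃ m, Steps H f n u (f m u) ∧ H.Adj (f m u) v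

omit [MeasurableSpace X] [StandardBorelSpace X] in
lemma Steps.reachable {H : SimpleGraph X} {f : ℕ → X → X} {n : ℕ} {u v : X}
    (h : Steps H f n u v) : H.Reachable u v := by
  induction n generalizing v with
  | zero => rw [show u = v from h]
  | succ n ih =>
    obtain ⟨m, h1, h2⟩ := h
    exact (ih h1).trans h2.reachable

omit [MeasurableSpace X] [StandardBorelSpace X] in
lemma reachable_iff_steps {H : SimpleGraph X} {f : ℕ → X → X}
    (hf : ∀ u v, H.Reachable u v → ∃ n, f n u = v) (u v : X) :
    H.Reachable u v ↔ ∃ n, Steps H f n u v := by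
  constructor
  · intro h
    refine reach_closed (Z := {w | ∃ n, Steps H f n u w}) ?_ h ⟨0, rfl⟩
    rintro a b hab ⟨n, hn⟩
    obtain ⟨m, hm⟩ := hf u a hn.reachable
    refine ⟨n + 1, m, ?_, ?_⟩
    · rw [hm]; exact hn
    · rw [hm]; exact hab
  · rintro ⟨n, hn⟩
    exact hn.reachable

lemma measurable_steps {H : SimpleGraph X} {f : ℕ → X → X} (hH : MGraph H)
    (hf : ∀ n, Measurable (f n)) (n : ℕ) :
    Measurable fun q : X × X => Steps H f n q.1 q.2 := by
  induction n with
  | zero => exact Measurable.eq measurable_fst measurable_snd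
  | succ n ih =>
    refine Measurable.exists fun m => Measurable.and ?_ ?_
    · exact ih.comp (measurable_fst.prodMk ((hf m).comp measurable_fst))
    · exact (show Measurable fun q : X × X => H.Adj q.1 q.2 from hH).comp
        (((hf m).comp measurable_fst).prodMk measurable_snd)

lemma measurable_reachable {H : SimpleGraph X} {f : ℕ → X → X} (hH : MGraph H)
    (hf : ∀ n, Measurable (f n)) (hfE : ∀ u v, H.Reachable u v → ∃ n, f n u = v) :
    Measurable fun q : X × X => H.Reachable q.1 q.2 := by
  have heq : (fun q : X × X => H.Reachable q.1 q.2) = fun q : X × X => ∃ n, Steps H f n q.1 q.2 := by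
    funext q
    exact propext (reachable_iff_steps hfE _ _)
  rw [heq]
  exact Measurable.exists fun n => measurable_steps hH hf n

omit [StandardBorelSpace X] in
lemma measurable_restr {H : SimpleGraph X} (hH : MGraph H) {R : Set X}
    (hR : Measurable fun x => x ∈ R) : MGraph (restr H R) := by
  show Measurable fun q : X × X => H.Adj q.1 q.2 ∧ q.1 ∈ R ∧ q.2 ∈ R
  exact Measurable.and hH ((hR.comp measurable_fst).and (hR.comp measurable_snd))

/-- The forest is Borel. -/
lemma measurable_forest {G : SimpleGraph X} (hG : MGraph G) {p : X → ℕ} (hp : Measurable p)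
    {f : ℕ → X → X} (hf : ∀ n, Measurable (f n))
    (hfE : ∀ u v, G.Reachable u v → ∃ n, f n u = v) : MGraph (forest G p f) := by
  have hlow : ∀ c : ℕ, MGraph (restr G {w | p w < c}) := by
    intro c
    apply measurable_restr hG
    show Measurable fun x => p x < c
    exact measurableSet_setOfPred.1 (hp (measurableSet_Iio (a := c)))
  have hreach : ∀ c : ℕ, Measurable fun q : X × X =>
      (restr G {w | p w < c}).Reachable q.1 q.2 := fun c =>
    measurable_reachable (hlow c) hf (fun u v h => hfE u v (h.mono (restr_le _ _)))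
  have hpeq : ∀ c : ℕ, Measurable fun x => p x = c := fun c =>
    measurableSet_setOfPred.1 (hp (measurableSet_singleton c))
  have hplt : ∀ c : ℕ, Measurable fun x => p x < c := fun c =>
    measurableSet_setOfPred.1 (hp (measurableSet_Iio (a := c)))
  have hcand : ∀ m, Measurable fun q : X × X => Cand G p f q.1 q.2 m := by
    intro m
    have heq : (fun q : X × X => Cand G p f q.1 q.2 m) = fun q : X × X => ∃ c : ℕ, p q.1 = c ∧
        G.Adj q.1 (f m q.1) ∧ p (f m q.1) < c ∧
        (restr G {w | p w < c}).Reachable (f m q.1) q.2 := by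
      funext q
      apply propext
      constructor
      · rintro ⟨h1, h2, h3⟩
        exact ⟨p q.1, rfl, h1, h2, h3⟩
      · rintro ⟨c, rfl, h1, h2, h3⟩
        exact ⟨h1, h2, h3⟩
    rw [heq]
    refine Measurable.exists fun c => Measurable.and ((hpeq c).comp measurable_fst) ?_
    refine Measurable.and ?_ (Measurable.and ?_ ?_)
    · exact (show Measurable fun q : X × X => G.Adj q.1 q.2 from hG).comp
        (measurable_fst.prodMk ((hf m).comp measurable_fst))
    · exact (hplt c).comp ((hf m).comp measurable_fst)
    · exact (hreach c).comp (((hf m).comp measurable_fst).prodMk measurable_snd)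
  have hdown : Measurable fun q : X × X => Down G p f q.1 q.2 := by
    have heq : (fun q : X × X => Down G p f q.1 q.2) = fun q : X × X => G.Adj q.1 q.2 ∧
        (∃ c : ℕ, p q.1 = c ∧ p q.2 < c) ∧
        ∃ n, f n q.1 = q.2 ∧ ∀ m, m < n → ¬ Cand G p f q.1 q.2 m := by
      funext q
      apply propext
      constructor
      · rintro ⟨h1, h2, h3⟩
        exact ⟨h1, ⟨p q.1, rfl, h2⟩, h3⟩
      · rintro ⟨h1, ⟨c, rfl, h2⟩, h3⟩
        exact ⟨h1, h2, h3⟩
    rw [heq]
    refine Measurable.and hG (Measurable.and ?_ ?_)
    · exact Measurable.exists fun c => ((hpeq c).comp measurable_fst).and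
        ((hplt c).comp measurable_snd)
    · refine Measurable.exists fun n => Measurable.and ?_ ?_
      · exact Measurable.eq ((hf n).comp measurable_fst) measurable_snd
      · exact Measurable.forall fun m => Measurable.imp measurable_const (hcand m).not
  show Measurable fun q : X × X => Down G p f q.1 q.2 ∨ Down G p f q.2 q.1
  exact hdown.or (hdown.comp (measurable_snd.prodMk measurable_fst))

/-- `x` and `y` lie on a common chordless cycle of length at least four. -/
def OnCycle (G : SimpleGraph X) (x y : X) : Prop :=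
  ∃ m, 4 ≤ m ∧ ∃ e : cycleGraph m ↪g G, (∃ i, e i = x) ∧ ∃ j, e j = y

omit [MeasurableSpace X] [StandardBorelSpace X] in
lemma onCycle_reach {G : SimpleGraph X} {x y : X} (h : OnCycle G x y) : G.Reachable x y := by
  obtain ⟨m, hm, e, ⟨i, rfl⟩, ⟨j, rfl⟩⟩ := h
  obtain ⟨k, rfl⟩ : ∃ k, m = k + 1 := ⟨m - 1, by omega⟩
  exact (cycleGraph_connected.preconnected i j).map e.toHom

lemma measurable_onCycle {G : SimpleGraph X} (hG : MGraph G) {f : ℕ → X → X}
    (hf : ∀ n, Measurable (f n)) (hfE : ∀ u v, G.Reachable u v → ∃ n, f n u = v) :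
    Measurable fun q : X × X => OnCycle G q.1 q.2 := by
  have heq : (fun q : X × X => OnCycle G q.1 q.2) = fun q : X × X => ∃ m, 4 ≤ m ∧
      ∃ n : Fin m → ℕ, (∀ i j, (f (n i) q.1 = f (n j) q.1 ↔ i = j)) ∧
        (∀ i j, (G.Adj (f (n i) q.1) (f (n j) q.1) ↔ (cycleGraph m).Adj i j)) ∧
        (∃ i, f (n i) q.1 = q.1) ∧ ∃ j, f (n j) q.1 = q.2 := by
    funext q
    apply propext
    constructor
    · rintro ⟨m, hm, e, ⟨i, hi⟩, ⟨j, hj⟩⟩
      have hr : ∀ k, ∃ n, f n q.1 = e k := fun k =>
        hfE _ _ (onCycle_reach ⟨m, hm, e, ⟨i, hi⟩, ⟨k, rfl⟩⟩)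
      choose n hn using hr
      refine ⟨m, hm, n, ?_, ?_, ⟨i, by rw [hn, hi]⟩, ⟨j, by rw [hn, hj]⟩⟩
      · intro i j
        rw [hn, hn]
        exact e.injective.eq_iff
      · intro i j
        rw [hn, hn]
        exact e.map_adj_iff
    · rintro ⟨m, hm, n, h1, h2, ⟨i, hi⟩, ⟨j, hj⟩⟩
      refine ⟨m, hm, ⟨⟨fun k => f (n k) q.1, fun a b hab => (h1 a b).1 hab⟩, ?_⟩, ⟨i, hi⟩, ⟨j, hj⟩⟩
      intro a b
      exact h2 a b
  rw [heq]
  have hfi : ∀ n, Measurable fun q : X × X => f n q.1 := fun n => (hf n).comp measurable_fst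
  refine Measurable.exists fun m => Measurable.and measurable_const ?_
  refine Measurable.exists fun n => ?_
  refine Measurable.and ?_ (Measurable.and ?_ (Measurable.and ?_ ?_))
  · exact Measurable.forall fun i => Measurable.forall fun j =>
      (Measurable.eq (hfi _) (hfi _)).iff measurable_const
  · exact Measurable.forall fun i => Measurable.forall fun j =>
      ((show Measurable fun q : X × X => G.Adj q.1 q.2 from hG).comp
        ((hfi _).prodMk (hfi _))).iff measurable_const
  · exact Measurable.exists fun i => Measurable.eq (hfi _) measurable_fst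
  · exact Measurable.exists fun i => Measurable.eq (hfi _) measurable_snd

/-- A Borel colouring with countably many colours, for a Borel relation with finite sections inside
a countable Borel equivalence relation. -/
lemma exists_colouring {P : X → X → Prop} (hP : Measurable fun q : X × X => P q.1 q.2)
    {f : ℕ → X → X} (hf : ∀ n, Measurable (f n)) (hfE : ∀ u v, P u v → ∃ n, f n u = v)
    (hfin : ∀ x, {y | P x y}.Finite) :
    ∃ p : X → ℕ, Measurable p ∧ ∀ x y, P x y → x ≠ y → p x ≠ p y := by
  classical
  obtain ⟨φ, hφm, hφ⟩ := MeasurableSpace.measurable_injection_nat_bool_of_countablySeparated X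
  have hφ' : ∀ t, Measurable fun x => φ x t := fun t => (measurable_pi_iff.1 hφm) t
  let Good : X → ℕ → Prop := fun x N => ∀ y, P x y → x ≠ y → ∃ t, t < N ∧ φ x t ≠ φ y t
  have hex : ∀ x, ∃ N, Good x N := by
    intro x
    have h1 : ∀ y ∈ {y | P x y}, ∀ᶠ N in Filter.atTop, x ≠ y → ∃ t, t < N ∧ φ x t ≠ φ y t := by
      intro y _
      by_cases hxy : x = y
      · exact Filter.Eventually.of_forall fun N h => absurd hxy h
      · obtain ⟨t, ht⟩ := Function.ne_iff.1 (fun h => hxy (hφ h))
        filter_upwards [Filter.eventually_gt_atTop t] with N hN _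
        exact ⟨t, hN, ht⟩
    have h2 := (Filter.eventually_all_finite (hfin x)).2 h1
    obtain ⟨N, hN⟩ := h2.exists
    exact ⟨N, fun y hy hne => hN y hy hne⟩
  have hmeas : ∀ N, Measurable fun x => Good x N := by
    intro N
    have heq : (fun x => Good x N) = fun x => ∀ n, P x (f n x) → x ≠ f n x →
        ∃ t, t < N ∧ φ x t ≠ φ (f n x) t := by
      funext x
      apply propext
      constructor
      · intro h n hn hne
        exact h _ hn hne
      · intro h y hy hne
        obtain ⟨n, rfl⟩ := hfE x y hy
        exact h n hy hne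
    rw [heq]
    refine Measurable.forall fun n => Measurable.imp ?_ (Measurable.imp ?_ ?_)
    · exact hP.comp (measurable_id.prodMk (hf n))
    · exact (Measurable.eq measurable_id (hf n)).not
    · exact Measurable.exists fun t => Measurable.and measurable_const
        (Measurable.eq (hφ' t) ((hφ' t).comp (hf n))).not
  let N : X → ℕ := fun x => Nat.find (hex x)
  have hN : Measurable N := measurable_find hex fun k => measurableSet_setOfPred.2 (hmeas k)
  let c : X → ℕ := fun x => Encodable.encode (⟨N x, fun t => φ x t⟩ : Σ n : ℕ, Fin n → Bool)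
  refine ⟨c, ?_, ?_⟩
  · -- measurability
    apply measurable_to_countable'
    intro k
    have heq : c ⁻¹' {k} = {x | ∃ s : Σ n : ℕ, Fin n → Bool, Encodable.encode s = k ∧ N x = s.1 ∧
        ∀ t : Fin s.1, φ x t = s.2 t} := by
      ext x
      simp only [Set.mem_preimage, Set.mem_singleton_iff]
      constructor
      · intro h
        exact ⟨_, h, rfl, fun t => rfl⟩
      · rintro ⟨⟨n, s⟩, h1, h2, h3⟩
        show Encodable.encode (⟨N x, fun t => φ x t⟩ : Σ n : ℕ, Fin n → Bool) = k
        rw [← h1]
        simp only at h2 h3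
        subst h2
        congr 2
        funext t
        exact h3 t
    rw [heq, measurableSet_setOfPred]
    refine Measurable.exists fun s => Measurable.and measurable_const (Measurable.and ?_ ?_)
    · exact Measurable.eq hN measurable_const
    · exact Measurable.forall fun t => Measurable.eq (hφ' t) measurable_const
  · intro x y hxy hne hc
    have h1 := Encodable.encode_injective hc
    have h2 : Good x (N x) := Nat.find_spec (hex x)
    obtain ⟨t, ht, hne'⟩ := h2 y hxy hne
    apply hne'
    have h3 : N x = N y := congrArg Sigma.fst h1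
    have h4 : ∀ (a b : Σ n : ℕ, Fin n → Bool) (t : ℕ) (ha : t < a.1) (hb : t < b.1), a = b →
        a.2 ⟨t, ha⟩ = b.2 ⟨t, hb⟩ := by
      rintro a b t ha hb rfl
      rfl
    exact h4 _ _ t ht (h3 ▸ ht) h1

end Pool.Agent.Helper99.Treeing
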