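import Pool.Agent.Helper99.TreeingStep

/-!
# The limit of the exchange process
-/

namespace Pool.Agent.Helper99.Treeing

open SimpleGraph

variable {V : Type*}

/-! ### Connectedness of a graph on a set -/

/-- The edges of `H` inside `R`, as a graph on `V`. -/
def restr (H : SimpleGraph V) (R : Set V) : SimpleGraph V where
  Adj u v := H.Adj u v ∧ u ∈ R ∧ v ∈ R
  symm := ⟨fun _ _ h => ⟨h.1.symm, h.2.2, h.2.1⟩⟩
  loopless := ⟨fun _ h => h.1.ne rfl⟩

lemma restr_mono {H H' : SimpleGraph V} {R R' : Set V} (h : H ≤ H') (hR : R ⊆ R') :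
    restr H R ≤ restr H' R' := fun _ _ hab => ⟨h hab.1, hR hab.2.1, hR hab.2.2⟩

lemma restr_le (H : SimpleGraph V) (R : Set V) : restr H R ≤ H := fun _ _ h => h.1

/-- `H` is connected on `R`. -/
def ConnOn (H : SimpleGraph V) (R : Set V) : Prop := ∀ u ∈ R, ∀ v ∈ R, (restr H R).Reachable u v

lemma ConnOn.mono {H H' : SimpleGraph V} {R : Set V} (h : ConnOn H R) (hH : H ≤ H') :
    ConnOn H' R := fun u hu v hv => (h u hu v hv).mono (restr_mono hH le_rfl)

lemma connOn_of_root {H : SimpleGraph V} {R : Set V} {r : V}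
    (h : ∀ u ∈ R, (restr H R).Reachable r u) : ConnOn H R :=
  fun u hu v hv => (h u hu).symm.trans (h v hv)

lemma connOn_singleton (H : SimpleGraph V) (x : V) : ConnOn H {x} := by
  intro u hu v hv
  rw [Set.mem_singleton_iff] at hu hv
  subst hu; subst hv
  exact Reachable.refl _

lemma ConnOn.union {H : SimpleGraph V} {R R' : Set V} (h : ConnOn H R) (h' : ConnOn H R') {x : V}
    (hx : x ∈ R) (hx' : x ∈ R') : ConnOn H (R ∪ R') := by
  apply connOn_of_root (r := x)
  rintro u (hu | hu)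
  · exact (h x hx u hu).mono (restr_mono le_rfl Set.subset_union_left)
  · exact (h' x hx' u hu).mono (restr_mono le_rfl Set.subset_union_right)

lemma ConnOn.join {H : SimpleGraph V} {R R' : Set V} (h : ConnOn H R) (h' : ConnOn H R') {x y : V}
    (hx : x ∈ R) (hy : y ∈ R') (hxy : H.Adj x y) : ConnOn H (R ∪ R') := by
  apply connOn_of_root (r := x)
  rintro u (hu | hu)
  · exact (h x hx u hu).mono (restr_mono le_rfl Set.subset_union_left)
  · have h1 : (restr H (R ∪ R')).Adj x y := ⟨hxy, Or.inl hx, Or.inr hy⟩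
    exact h1.reachable.trans
      ((h' y hy u hu).mono (restr_mono le_rfl Set.subset_union_right))

lemma exists_finite_connOn {H : SimpleGraph V} {u v : V} (h : H.Reachable u v) :
    ∃ Q : Set V, Q.Finite ∧ u ∈ Q ∧ v ∈ Q ∧ ConnOn H Q := by
  rw [reachable_iff_reflTransGen] at h
  induction h with
  | refl => exact ⟨{u}, Set.finite_singleton u, rfl, rfl, connOn_singleton H u⟩
  | @tail a c _ hbc ih =>
    obtain ⟨Q, hQ, hu, ha, hc⟩ := ih
    exact ⟨Q ∪ {c}, hQ.union (Set.finite_singleton c), Or.inl hu, Or.inr rfl,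
      hc.join (connOn_singleton H c) ha rfl hbc⟩

/-! ### Chains of forests and their limit -/

structure Chain (G : SimpleGraph V) (T : ℕ → SimpleGraph V) : Prop where
  acyc : ∀ m, (T m).IsAcyclic
  reach : ∀ m u v, (T (m + 1)).Reachable u v ↔ (T m).Reachable u v
  keep : ∀ m u v, (T m).Adj u v → G.Adj u v → (T (m + 1)).Adj u v
  old : ∀ m u v, (T (m + 1)).Adj u v → ¬ G.Adj u v → (T m).Adj u v
  removed : ∀ m u v, (T m).Adj u v → ¬ (T (m + 1)).Adj u v → (T (m + 1) ⊓ G).Reachable u v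

/-- The graph of the eventual edges. -/
def lim (T : ℕ → SimpleGraph V) : SimpleGraph V where
  Adj u v := ∃ M, ∀ m, M ≤ m → (T m).Adj u v
  symm := ⟨fun _ _ ⟨M, h⟩ => ⟨M, fun m hm => (h m hm).symm⟩⟩
  loopless := ⟨fun _ ⟨M, h⟩ => (h M le_rfl).ne rfl⟩

lemma lim_reach {H : ℕ → SimpleGraph V} {u v : V} (h : (lim H).Reachable u v) :
    ∃ M, ∀ m, M ≤ m → (H m).Reachable u v := by
  refine reach_closed (Z := {w | ∃ M, ∀ m, M ≤ m → (H m).Reachable u w}) ?_ h
    ⟨0, fun m _ => Reachable.refl _⟩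
  rintro x y ⟨M, hM⟩ ⟨M', hM'⟩
  exact ⟨max M M', fun m hm => (hM' m ((le_max_right _ _).trans hm)).trans
    (hM m ((le_max_left _ _).trans hm)).reachable⟩

variable {G : SimpleGraph V} {T : ℕ → SimpleGraph V}

lemma Chain.reach0 (h : Chain G T) (m : ℕ) (u v : V) :
    (T m).Reachable u v ↔ (T 0).Reachable u v := by
  induction m with
  | zero => rfl
  | succ n ih => rw [h.reach, ih]

lemma Chain.keep' (h : Chain G T) {m n : ℕ} (hmn : m ≤ n) {u v : V} (h1 : (T m).Adj u v)
    (h2 : G.Adj u v) : (T n).Adj u v := by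
  induction hmn with
  | refl => exact h1
  | step _ ih => exact h.keep _ _ _ ih h2

lemma Chain.inf_le_lim (h : Chain G T) (m : ℕ) : T m ⊓ G ≤ lim T :=
  fun _ _ huv => ⟨m, fun _ hn => h.keep' hn huv.1 huv.2⟩

lemma Chain.lim_old (h : Chain G T) {u v : V} (h1 : (lim T).Adj u v) (h2 : ¬ G.Adj u v) (m : ℕ) :
    (T m).Adj u v := by
  obtain ⟨M, hM⟩ := h1
  by_cases hm : M ≤ m
  · exact hM m hm
  · push Not at hm
    have key : ∀ d, d ≤ M → (T (M - d)).Adj u v := by
      intro d
      induction d with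
      | zero => intro _; exact hM M le_rfl
      | succ d ih =>
        intro hd
        have h3 := ih (by omega)
        have h4 : M - d = (M - (d + 1)) + 1 := by omega
        rw [h4] at h3
        exact h.old _ _ _ h3 h2
    have := key (M - m) (by omega)
    rwa [show M - (M - m) = m by omega] at this

lemma Chain.lim_acyclic (h : Chain G T) : (lim T).IsAcyclic := by
  rw [isAcyclic_iff_forall_adj_isBridge]
  rintro u v ⟨M, hM⟩
  rw [isBridge_iff]
  intro hreach
  have h1 : (lim (fun m => (T m).deleteEdges {s(u, v)})).Reachable u v := by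
    refine hreach.mono ?_
    intro x y hxy
    rw [deleteEdges_adj] at hxy
    obtain ⟨⟨M', hM'⟩, hne⟩ := hxy
    refine ⟨M', fun m hm => ?_⟩
    rw [deleteEdges_adj]
    exact ⟨hM' m hm, hne⟩
  obtain ⟨M', hM'⟩ := lim_reach h1
  have h2 := (isAcyclic_iff_forall_adj_isBridge.1 (h.acyc (max M M'))) (hM _ (le_max_left _ _))
  rw [isBridge_iff] at h2
  exact h2 (hM' _ (le_max_right _ _))

/-- An edge of `T 0` survives or is replaced by a path of `lim T ⊓ G`. -/
lemma Chain.lim_of_zero (h : Chain G T) {u v : V} (h0 : (T 0).Adj u v) :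
    (lim T).Adj u v ∨ (lim T ⊓ G).Reachable u v := by
  by_cases hall : ∀ m, (T m).Adj u v
  · exact Or.inl ⟨0, fun m _ => hall m⟩
  · right
    push Not at hall
    classical
    have hex : ∃ m, ¬ (T m).Adj u v := hall
    have h1 : ¬ (T (Nat.find hex)).Adj u v := Nat.find_spec hex
    have h2 : Nat.find hex ≠ 0 := fun h' => by rw [h'] at h1; exact h1 h0
    obtain ⟨m, hm⟩ := Nat.exists_eq_succ_of_ne_zero h2
    have h3 : (T m).Adj u v := by
      by_contra hc
      have := Nat.find_min' hex hc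
      omega
    rw [hm] at h1
    refine (h.removed m u v h3 h1).mono ?_
    exact le_inf (h.inf_le_lim _) inf_le_right

lemma Chain.lim_reach_iff (h : Chain G T) (u v : V) :
    (lim T).Reachable u v ↔ (T 0).Reachable u v := by
  constructor
  · intro h1
    obtain ⟨M, hM⟩ := lim_reach h1
    exact (h.reach0 M u v).1 (hM M le_rfl)
  · refine reach_of_adj_reach ?_
    intro x y hxy
    rcases h.lim_of_zero hxy with h1 | h1
    · exact h1.reachable
    · exact h1.mono inf_le_left

/-- A finite set which is connected for `T 0` and for `G` is contained in a finite set which is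
connected for `lim T` and for `G`. -/
lemma Chain.exists_star (h : Chain G T) {R : Set V} (hR : R.Finite) (h0 : ConnOn (T 0) R)
    (hG : ConnOn G R) : ∃ R' : Set V, R'.Finite ∧ R ⊆ R' ∧ ConnOn (lim T) R' ∧ ConnOn G R' := by
  rcases R.eq_empty_or_nonempty with rfl | ⟨r, hr⟩
  · exact ⟨∅, Set.finite_empty, le_rfl, fun u hu => hu.elim, fun u hu => hu.elim⟩
  have hQ : ∀ a b : V, ∃ Q : Set V, Q.Finite ∧ ((T 0).Adj a b → a ∈ Q ∧ b ∈ Q ∧
      ConnOn (lim T) Q ∧ ∀ w ∈ Q, (restr G Q).Reachable a w ∨ w = b) := by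
    intro a b
    by_cases hab : (T 0).Adj a b
    · rcases h.lim_of_zero hab with h1 | h1
      · refine ⟨{a} ∪ {b}, (Set.finite_singleton _).union (Set.finite_singleton _), fun _ =>
          ⟨Or.inl rfl, Or.inr rfl, ?_, ?_⟩⟩
        · exact (connOn_singleton _ a).join (connOn_singleton _ b) rfl rfl h1
        · rintro w (hw | hw)
          · rw [Set.mem_singleton_iff] at hw
            subst hw
            exact Or.inl (Reachable.refl _)
          · exact Or.inr hw
      · obtain ⟨Q, hQ, ha, hb, hc⟩ := exists_finite_connOn h1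
        exact ⟨Q, hQ, fun _ => ⟨ha, hb, hc.mono inf_le_left, fun w hw =>
          Or.inl ((hc a ha w hw).mono (restr_mono inf_le_right le_rfl))⟩⟩
    · exact ⟨∅, Set.finite_empty, fun h' => absurd h' hab⟩
  choose Q hQf hQ using hQ
  let R' : Set V := R ∪ ⋃ a ∈ R, ⋃ b ∈ R, {w | (T 0).Adj a b ∧ w ∈ Q a b}
  have hsub : R ⊆ R' := Set.subset_union_left
  have hQsub : ∀ a ∈ R, ∀ b ∈ R, (T 0).Adj a b → Q a b ⊆ R' := by
    intro a ha b hb hab w hw
    right
    simp only [Set.mem_iUnion, Set.mem_ofPred_eq, exists_prop]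
    exact ⟨a, ha, b, hb, hab, hw⟩
  have hmem : ∀ w ∈ R', w ∈ R ∨ ∃ a ∈ R, ∃ b ∈ R, (T 0).Adj a b ∧ w ∈ Q a b := by
    rintro w (hw | hw)
    · exact Or.inl hw
    · right
      simpa only [Set.mem_iUnion, Set.mem_ofPred_eq, exists_prop] using hw
  have hlimR : ∀ a ∈ R, (restr (lim T) R').Reachable r a := by
    intro a ha
    refine reach_of_adj_reach ?_ (h0 r hr a ha)
    rintro x y ⟨hxy, hx, hy⟩
    obtain ⟨h1, h2, h3, _⟩ := hQ x y hxy
    exact (h3 x h1 y h2).mono (restr_mono le_rfl (hQsub x hx y hy hxy))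
  have hGR : ∀ a ∈ R, (restr G R').Reachable r a := fun a ha =>
    (hG r hr a ha).mono (restr_mono le_rfl hsub)
  refine ⟨R', ?_, hsub, ?_, ?_⟩
  · refine hR.union ?_
    refine hR.biUnion fun a _ => hR.biUnion fun b _ => (hQf a b).subset fun w hw => hw.2
  · apply connOn_of_root (r := r)
    intro w hw
    rcases hmem w hw with hw | ⟨a, ha, b, hb, hab, hw⟩
    · exact hlimR w hw
    · obtain ⟨h1, h2, h3, _⟩ := hQ a b hab
      exact (hlimR a ha).trans ((h3 a h1 w hw).mono (restr_mono le_rfl (hQsub a ha b hb hab)))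
  · apply connOn_of_root (r := r)
    intro w hw
    rcases hmem w hw with hw | ⟨a, ha, b, hb, hab, hw⟩
    · exact hGR w hw
    · obtain ⟨h1, h2, _, h4⟩ := hQ a b hab
      rcases h4 w hw with h5 | h5
      · exact (hGR a ha).trans (h5.mono (restr_mono le_rfl (hQsub a ha b hb hab)))
      · rw [h5]; exact hGR b hb

/-! ### The process along a sequence of block families -/

/-- The sequence obtained from `T₀` by the steps of the block families `b m`. -/
noncomputable def proc (G T₀ : SimpleGraph V) (b : ℕ → Σ k, Blocks V k) : ℕ → SimpleGraph V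
  | 0 => T₀
  | m + 1 => (b m).2.step (proc G T₀ b m) G

lemma proc_acyclic {G T₀ : SimpleGraph V} (hT₀ : T₀.IsAcyclic) (b : ℕ → Σ k, Blocks V k) (m : ℕ) :
    (proc G T₀ b m).IsAcyclic := by
  induction m with
  | zero => exact hT₀
  | succ n ih => exact Blocks.step_acyclic ih

lemma proc_chain {G T₀ : SimpleGraph V} (hT₀ : T₀.IsAcyclic) (b : ℕ → Σ k, Blocks V k) :
    Chain G (proc G T₀ b) where
  acyc := proc_acyclic hT₀ b
  reach m u v := Blocks.step_reach (proc_acyclic hT₀ b m) u v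
  keep m _ _ h h' := Blocks.step_keep (proc_acyclic hT₀ b m) h h'
  old m _ _ h h' := Blocks.step_old (proc_acyclic hT₀ b m) h h'
  removed m _ _ h h' := Blocks.step_removed (proc_acyclic hT₀ b m) h h'

/-- connectedness of the trace -/
lemma tr_connected {k : ℕ} {b : Blocks V k} {x : V} (hx : x ∈ b.D) {H H' : SimpleGraph V}
    {R : Set V} (hne : R.Nonempty) (hR : Set.range (fun i => b.g i x) = R) (hc : ConnOn H R)
    (hH : ∀ u ∈ R, ∀ v ∈ R, H.Adj u v → H'.Adj u v) : (b.tr H' x).Connected := by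
  obtain ⟨r, hr⟩ := hne
  have hmemR : ∀ i, b.g i x ∈ R := fun i => hR ▸ Set.mem_range_self i
  rw [← hR] at hr
  obtain ⟨i₀, _⟩ := hr
  rw [connected_iff]
  refine ⟨?_, ⟨i₀⟩⟩
  intro i j
  have hmem : b.g j x ∈ {w | ∃ l, w = b.g l x ∧ (b.tr H' x).Reachable i l} := by
    refine reach_closed ?_ (hc _ (hmemR i) _ (hmemR j)) ⟨i, rfl, Reachable.refl _⟩
    rintro w w' ⟨hww', hw, hw'⟩ ⟨l, hl, hl'⟩
    rw [← hR] at hw'
    obtain ⟨l', hl''⟩ := hw'
    refine ⟨l', hl''.symm, hl'.trans (Adj.reachable ?_)⟩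
    rw [Blocks.tr_adj]
    have h1 : w' ∈ R := by rw [← hl'']; exact hmemR l'
    have h2 := hH w hw w' h1 hww'
    rw [hl] at h2
    simp only at hl''
    rw [hl'']
    exact h2
  obtain ⟨l, hl, hl'⟩ := hmem
  have := (b.inj x hx x hx j l hl).2
  rw [this]; exact hl'

/-- If every finite set inside a component is a block infinitely often, and every edge of `T₀`
lies in a finite set connected for `T₀` and `G`, the limit is contained in `G`. -/
theorem lim_le {G T₀ : SimpleGraph V} (hT₀ : T₀.IsAcyclic) {b : ℕ → Σ k, Blocks V k}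
    (hb : ∀ R : Set V, R.Finite → R.Nonempty → (∀ u ∈ R, ∀ v ∈ R, T₀.Reachable u v) → ∀ M,
      ∃ m, M ≤ m ∧ ∃ x ∈ (b m).2.D, Set.range (fun i => (b m).2.g i x) = R)
    (hcov : ∀ u v, T₀.Adj u v → ∃ R : Set V, R.Finite ∧ u ∈ R ∧ v ∈ R ∧ ConnOn T₀ R ∧ ConnOn G R) :
    lim (proc G T₀ b) ≤ G := by
  intro x y hxy
  by_contra hG
  have hch := proc_chain (G := G) hT₀ b
  have h0 : T₀.Adj x y := hch.lim_old hxy hG 0
  obtain ⟨R, hR, hxR, hyR, hRT, hRG⟩ := hcov x y h0
  obtain ⟨R', hR', hsub, hlim, hGR'⟩ := hch.exists_star hR hRT hRG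
  have hclass : ∀ u ∈ R', ∀ v ∈ R', T₀.Reachable u v := by
    intro u hu v hv
    have h1 : (lim (proc G T₀ b)).Reachable u v := (hlim u hu v hv).mono (restr_le _ _)
    exact (hch.lim_reach_iff u v).1 h1
  -- all limit edges inside `R'` are present from some stage on
  have hev : ∃ M, ∀ m, M ≤ m → ∀ u ∈ R', ∀ v ∈ R', (lim (proc G T₀ b)).Adj u v →
      (proc G T₀ b m).Adj u v := by
    have h1 : ∀ p ∈ R' ×ˢ R', ∀ᶠ m in Filter.atTop, (lim (proc G T₀ b)).Adj p.1 p.2 →
        (proc G T₀ b m).Adj p.1 p.2 := by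
      intro p _
      by_cases hp : (lim (proc G T₀ b)).Adj p.1 p.2
      · obtain ⟨M, hM⟩ := hp
        filter_upwards [Filter.eventually_ge_atTop M] with m hm _
        exact hM m hm
      · exact Filter.Eventually.of_forall fun m h => absurd h hp
    have h2 := (Filter.eventually_all_finite (hR'.prod hR')).2 h1
    obtain ⟨M, hM⟩ := Filter.eventually_atTop.1 h2
    exact ⟨M, fun m hm u hu v hv => hM m hm (u, v) ⟨hu, hv⟩⟩
  obtain ⟨M, hM⟩ := hev
  obtain ⟨M', hM'⟩ := hxy
  obtain ⟨m, hm, z, hz, hrange⟩ := hb R' hR' ⟨x, hsub hxR⟩ hclass (max M M')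
  have hact : (b m).2.Active (proc G T₀ b m) G z := by
    refine ⟨hz, ?_, ?_⟩
    · exact tr_connected hz ⟨x, hsub hxR⟩ hrange hlim
        (hM m ((le_max_left _ _).trans hm))
    · exact tr_connected hz ⟨x, hsub hxR⟩ hrange hGR' (fun _ _ _ _ h => h)
  have hx' : x ∈ Set.range (fun i => (b m).2.g i z) := by rw [hrange]; exact hsub hxR
  have hy' : y ∈ Set.range (fun i => (b m).2.g i z) := by rw [hrange]; exact hsub hyR
  obtain ⟨i, hi⟩ := hx'
  obtain ⟨j, hj⟩ := hy'
  simp only at hi hj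
  have hadj : (proc G T₀ b (m + 1)).Adj x y := hM' (m + 1) (by omega)
  apply hG
  rw [← hi, ← hj] at hadj ⊢
  exact Blocks.step_block (proc_acyclic hT₀ b m) hact hadj

end Pool.Agent.Helper99.Treeing
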