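import Pool.Agent.Helper99.TreeingComb
import Pool.Agent.Helper99.TreeingLimit

/-!
# Spanning forests from a rank function with a unique top on every chordless cycle
-/

namespace Pool.Agent.Helper99.Treeing

open SimpleGraph

variable {V : Type*}

/-- From a point `x` and an induced path `q 0, ..., q d` all of whose inner points are not adjacent
to `x`, while the ends are, we get a chordless cycle. -/
lemma exists_cycle_embedding {G : SimpleGraph V} {x : V} {q : ℕ → V} {d : ℕ} (hd : 1 ≤ d)
    (hne : ∀ i j, i < j → j ≤ d → q i ≠ q j)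
    (hadj : ∀ i j, i < j → j ≤ d → (G.Adj (q i) (q j) ↔ j = i + 1))
    (hx : ∀ i, i ≤ d → x ≠ q i)
    (hxa : ∀ i, i ≤ d → (G.Adj x (q i) ↔ i = 0 ∨ i = d)) :
    ∃ e : cycleGraph (d + 2) ↪g G, (∃ i, e i = x) ∧ (∀ i, i ≤ d → ∃ j, e j = q i) ∧
      ∀ j, e j = x ∨ ∃ i, i ≤ d ∧ e j = q i := by
  let a : Fin (d + 2) → V := fun u => if u.val = 0 then x else q (u.val - 1)
  have ha0 : ∀ u : Fin (d + 2), u.val = 0 → a u = x := fun u hu => if_pos hu
  have ha1 : ∀ u : Fin (d + 2), u.val ≠ 0 → a u = q (u.val - 1) := fun u hu => if_neg hu
  have hinj : Function.Injective a := by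
    intro u v huv
    by_cases hu : u.val = 0
    · by_cases hv : v.val = 0
      · exact Fin.ext (hu.trans hv.symm)
      · rw [ha0 u hu, ha1 v hv] at huv
        exact absurd huv (hx _ (by have := v.2; omega))
    · by_cases hv : v.val = 0
      · rw [ha1 u hu, ha0 v hv] at huv
        exact absurd huv.symm (hx _ (by have := u.2; omega))
      · rw [ha1 u hu, ha1 v hv] at huv
        rcases lt_trichotomy u.val v.val with h | h | h
        · exact absurd huv (hne _ _ (by omega) (by have := v.2; omega))
        · exact Fin.ext h
        · exact absurd huv.symm (hne _ _ (by omega) (by have := u.2; omega))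
  have hsub : ∀ u v : Fin (d + 2), v.val ≤ u.val → (u - v).val = u.val - v.val := by
    intro u v h
    exact Fin.sub_val_of_le h
  have hsub' : ∀ u v : Fin (d + 2), u.val < v.val → (u - v).val = d + 2 + u.val - v.val := by
    intro u v h
    have h1 : (u - v).val = (d + 2 - v.val + u.val) % (d + 2) := rfl
    rw [h1, Nat.mod_eq_of_lt (by have := v.2; omega)]
    have := v.2
    omega
  have hlt : ∀ u v : Fin (d + 2), u.val < v.val →
      (G.Adj (a u) (a v) ↔ (cycleGraph (d + 2)).Adj u v) := by
    intro u v huv
    have hv : v.val ≠ 0 := by omega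
    have hv2 := v.2
    rw [cycleGraph_adj', hsub v u huv.le, hsub' u v huv]
    by_cases hu : u.val = 0
    · rw [ha0 u hu, ha1 v hv, hxa _ (by omega)]
      omega
    · rw [ha1 u hu, ha1 v hv, hadj _ _ (by omega) (by omega)]
      omega
  let e : cycleGraph (d + 2) ↪g G :=
    { toFun := a
      inj' := hinj
      map_rel_iff' := by
        intro u v
        rcases lt_trichotomy u.val v.val with h | h | h
        · exact hlt u v h
        · have : u = v := Fin.ext h
          subst this
          simp
        · have := hlt v u h
          rw [G.adj_comm, (cycleGraph (d + 2)).adj_comm] at this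
          exact this }
  have he : ∀ u, e u = a u := fun _ => rfl
  refine ⟨e, ⟨⟨0, by omega⟩, by rw [he]; exact ha0 _ rfl⟩, ?_, ?_⟩
  · intro i hi
    refine ⟨⟨i + 1, by omega⟩, ?_⟩
    rw [he]
    have h1 : ((⟨i + 1, by omega⟩ : Fin (d + 2)).val) ≠ 0 := Nat.succ_ne_zero i
    rw [ha1 _ h1]
    rfl
  · intro j
    by_cases hj : j.val = 0
    · exact Or.inl (ha0 j hj)
    · exact Or.inr ⟨j.val - 1, by have := j.2; omega, ha1 j hj⟩

/-- The maximum of `p` on every chordless cycle of length at least four is attained once. -/
def UniqueTop (G : SimpleGraph V) (p : V → ℕ) : Prop :=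
  ∀ m, 4 ≤ m → ∀ e : cycleGraph m ↪g G, ∀ i j, (∀ k, p (e k) ≤ p (e i)) →
    (∀ k, p (e k) ≤ p (e j)) → i = j

/-- Key lemma: two lower neighbours of `x` which are connected among the points of level at most
`p x` different from `x` are connected below the level of `x`. -/
lemma key {G : SimpleGraph V} {p : V → ℕ} (hp : ∀ x y, G.Adj x y → p x ≠ p y)
    (htop : UniqueTop G p) {x y z : V} (hxy : G.Adj x y) (hxz : G.Adj x z) (hy : p y < p x)
    (hz : p z < p x) (h : (restr G {w | p w ≤ p x ∧ w ≠ x}).Reachable y z) :
    (restr G {w | p w < p x}).Reachable y z := by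
  classical
  set H := restr G {w | p w ≤ p x ∧ w ≠ x} with hH
  set L := restr G {w | p w < p x} with hL
  by_contra hcon
  let Bad : ℕ → Prop := fun n => ∃ q : ℕ → V, (G.Adj x (q 0) ∧ p (q 0) < p x) ∧
    (G.Adj x (q n) ∧ p (q n) < p x) ∧ ¬ L.Reachable (q 0) (q n) ∧
    ∀ i < n, H.Adj (q i) (q (i + 1))
  have hbad : ∃ n, Bad n := by
    obtain ⟨w⟩ := h
    refine ⟨w.length, w.getVert, ?_, ?_, ?_, ?_⟩
    · rw [Walk.getVert_zero]; exact ⟨hxy, hy⟩
    · rw [Walk.getVert_length]; exact ⟨hxz, hz⟩
    · rw [Walk.getVert_zero, Walk.getVert_length]; exact hcon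
    · intro i hi
      exact w.adj_getVert_succ hi
  let n := Nat.find hbad
  have hn : Bad n := Nat.find_spec hbad
  have hmin : ∀ m, m < n → ¬ Bad m := fun m hm => Nat.find_min hbad hm
  obtain ⟨q, ⟨h0, h0'⟩, ⟨h1, h1'⟩, hnr, hstep⟩ := hn
  have hHG : ∀ {u v}, H.Adj u v → G.Adj u v := fun h => h.1
  -- membership of the path points
  have hmemlt : ∀ i, i ≤ n → p (q i) ≤ p x ∧ q i ≠ x := by
    intro i hi
    rcases Nat.eq_or_lt_of_le hi with h | h
    · rw [h]; exact ⟨h1'.le, fun h2 => h1.ne h2.symm⟩
    · exact (hstep i h).2.1
  -- interior points are not adjacent to `x`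
  have hint : ∀ i, 0 < i → i < n → ¬ G.Adj x (q i) := by
    intro i hi0 hin hadj
    have hlt : p (q i) < p x := lt_of_le_of_ne (hmemlt i hin.le).1 (fun h => hp _ _ hadj h.symm)
    by_cases hL1 : L.Reachable (q 0) (q i)
    · have hL2 : ¬ L.Reachable (q i) (q n) := fun h => hnr (hL1.trans h)
      apply hmin (n - i) (by omega)
      refine ⟨fun k => q (k + i), ?_, ?_, ?_, ?_⟩
      · simpa using ⟨hadj, hlt⟩
      · have : n - i + i = n := by omega
        simp only [this]; exact ⟨h1, h1'⟩
      · have : n - i + i = n := by omega
        simp only [this, Nat.zero_add]; exact hL2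
      · intro k hk
        have := hstep (k + i) (by omega)
        have h3 : k + i + 1 = k + 1 + i := by omega
        rw [h3] at this
        exact this
    · apply hmin i hin
      exact ⟨q, ⟨h0, h0'⟩, ⟨hadj, hlt⟩, hL1, fun k hk => hstep k (by omega)⟩
  -- shortcuts are impossible
  have hcut : ∀ i j, i < j → j ≤ n → q i ≠ q j := by
    intro i j hij hjn heq
    apply hmin (n - (j - i)) (by omega)
    refine ⟨fun k => if k ≤ i then q k else q (k + (j - i)), ?_, ?_, ?_, ?_⟩
    · simpa using ⟨h0, h0'⟩
    · by_cases hc : n - (j - i) ≤ i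
      · have hjn' : j = n := by omega
        have hni : n - (j - i) = i := by omega
        simp only [hni, le_refl, if_true]
        rw [heq, hjn']; exact ⟨h1, h1'⟩
      · simp only [hc, if_false]
        have : n - (j - i) + (j - i) = n := by omega
        rw [this]; exact ⟨h1, h1'⟩
    · have hgoal : (if n - (j - i) ≤ i then q (n - (j - i)) else q (n - (j - i) + (j - i))) = q n := by
        by_cases hc : n - (j - i) ≤ i
        · have hjn' : j = n := by omega
          have hni : n - (j - i) = i := by omega
          simp only [hni, le_refl, if_true]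
          rw [heq, hjn']
        · simp only [hc, if_false]
          have : n - (j - i) + (j - i) = n := by omega
          rw [this]
      simp only [Nat.zero_le, if_true]
      rw [hgoal]; exact hnr
    · intro k hk
      by_cases hk1 : k + 1 ≤ i
      · have hk0 : k ≤ i := by omega
        simp only [hk0, hk1, if_true]
        exact hstep k (by omega)
      · by_cases hk0 : k ≤ i
        · have hki : k = i := by omega
          simp only [hk0, hk1, if_true, if_false]
          have h3 : k + 1 + (j - i) = j + 1 := by omega
          rw [h3, hki, heq]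
          exact hstep j (by omega)
        · simp only [hk0, hk1, if_false]
          have h3 : k + 1 + (j - i) = k + (j - i) + 1 := by omega
          rw [h3]
          exact hstep _ (by omega)
  have hchord : ∀ i j, i < j → j ≤ n → (G.Adj (q i) (q j) ↔ j = i + 1) := by
    intro i j hij hjn
    constructor
    · intro hadj
      by_contra hne
      have hHadj : H.Adj (q i) (q j) := ⟨hadj, hmemlt i (by omega), hmemlt j hjn⟩
      apply hmin (n - (j - i - 1)) (by omega)
      have hgoal : (if n - (j - i - 1) ≤ i then q (n - (j - i - 1)) else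
          q (n - (j - i - 1) + (j - i - 1))) = q n := by
        have hc : ¬ (n - (j - i - 1) ≤ i) := by omega
        simp only [hc, if_false]
        congr 1; omega
      refine ⟨fun k => if k ≤ i then q k else q (k + (j - i - 1)), ?_, ?_, ?_, ?_⟩
      · simpa using ⟨h0, h0'⟩
      · show G.Adj x (if n - (j - i - 1) ≤ i then q (n - (j - i - 1)) else
          q (n - (j - i - 1) + (j - i - 1))) ∧ _
        simp only [hgoal]; exact ⟨h1, h1'⟩
      · simp only [Nat.zero_le, if_true]
        rw [hgoal]; exact hnr
      · intro k hk
        by_cases hk1 : k + 1 ≤ i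
        · have hk0 : k ≤ i := by omega
          simp only [hk0, hk1, if_true]
          exact hstep k (by omega)
        · by_cases hk0 : k ≤ i
          · have hki : k = i := by omega
            simp only [hk0, hk1, if_true, if_false]
            have h3 : k + 1 + (j - i - 1) = j := by omega
            rw [h3, hki]
            exact hHadj
          · simp only [hk0, hk1, if_false]
            have h3 : k + 1 + (j - i - 1) = k + (j - i - 1) + 1 := by omega
            rw [h3]
            exact hstep _ (by omega)
    · intro h
      rw [h]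
      exact hHG (hstep i (by omega))
  -- the path is long and leaves the lower level
  have hn2 : 2 ≤ n := by
    by_contra hlt
    have : n = 0 ∨ n = 1 := by omega
    rcases this with h | h
    · apply hnr; rw [h]
    · apply hnr
      have h2 := hstep 0 (by omega)
      rw [h]
      rw [h] at h1'
      exact Adj.reachable (⟨hHG h2, h0', h1'⟩ : L.Adj (q 0) (q 1))
  have hex : ∃ i, i ≤ n ∧ p (q i) = p x := by
    by_contra hno
    push Not at hno
    apply hnr
    have hlow : ∀ i, i ≤ n → p (q i) < p x := fun i hi =>
      lt_of_le_of_ne (hmemlt i hi).1 (hno i hi)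
    have : ∀ i, i ≤ n → L.Reachable (q 0) (q i) := by
      intro i
      induction i with
      | zero => intro _; exact Reachable.refl _
      | succ i ih =>
        intro hi
        refine (ih (by omega)).trans (Adj.reachable ?_)
        exact ⟨hHG (hstep i (by omega)), hlow i (by omega), hlow (i + 1) hi⟩
    exact this n le_rfl
  obtain ⟨i, hin, hpi⟩ := hex
  obtain ⟨e, ⟨i₀, hi₀⟩, hq, hall⟩ := exists_cycle_embedding (G := G) (x := x) (q := q) (d := n)
    (by omega) hcut hchord (fun i hi h => (hmemlt i hi).2 h.symm) (by
      intro i hi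
      constructor
      · intro hadj
        by_contra hne
        push Not at hne
        exact hint i (by omega) (by omega) hadj
      · rintro (h | h)
        · rw [h]; exact h0
        · rw [h]; exact h1)
  obtain ⟨i₁, hi₁⟩ := hq i hin
  have hmax : ∀ k, p (e k) ≤ p x := by
    intro k
    rcases hall k with h | ⟨j, hj, h⟩
    · rw [h]
    · rw [h]; exact (hmemlt j hj).1
  have := htop (n + 2) (by omega) e i₀ i₁ (by rw [hi₀]; exact hmax) (by rw [hi₁, hpi]; exact hmax)
  rw [this, hi₁] at hi₀
  exact (hmemlt i hin).2 hi₀

/-! ### The forest -/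

variable (G : SimpleGraph V) (p : V → ℕ) (f : ℕ → V → V)

/-- `f m x` is a neighbour of `x` of smaller rank, connected to `y` below the rank of `x`. -/
def Cand (x y : V) (m : ℕ) : Prop :=
  G.Adj x (f m x) ∧ p (f m x) < p x ∧ (restr G {w | p w < p x}).Reachable (f m x) y

/-- `y` is the chosen lower neighbour of `x` in its lower component. -/
def Down (x y : V) : Prop :=
  G.Adj x y ∧ p y < p x ∧ ∃ n, f n x = y ∧ ∀ m < n, ¬ Cand G p f x y m

/-- The forest. -/
def forest : SimpleGraph V where
  Adj x y := Down G p f x y ∨ Down G p f y x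
  symm := ⟨fun _ _ h => h.symm⟩
  loopless := ⟨fun x h => by
    rcases h with h | h <;> exact h.1.ne rfl⟩

variable {G p f}

lemma forest_le : forest G p f ≤ G := by
  intro x y h
  rcases h with h | h
  · exact h.1
  · exact h.1.symm

lemma Down.unique {x y z : V} (hy : Down G p f x y) (hz : Down G p f x z)
    (h : (restr G {w | p w < p x}).Reachable y z) : y = z := by
  obtain ⟨h1, h2, n, hn, hmin⟩ := hy
  obtain ⟨h1', h2', n', hn', hmin'⟩ := hz
  have h3 : n = n' := by
    rcases lt_trichotomy n n' with hlt | heq | hlt
    · exfalso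
      apply hmin' n hlt
      rw [← hn] at h h1 h2
      exact ⟨h1, h2, h⟩
    · exact heq
    · exfalso
      apply hmin n' hlt
      rw [← hn'] at h h1' h2'
      exact ⟨h1', h2', h.symm⟩
  rw [← hn, ← hn', h3]

theorem forest_acyclic (hp : ∀ x y, G.Adj x y → p x ≠ p y) (htop : UniqueTop G p) :
    (forest G p f).IsAcyclic := by
  classical
  intro v c hc
  -- a vertex of maximal rank on the cycle
  obtain ⟨x, hx, hmax⟩ : ∃ x ∈ c.support, ∀ y ∈ c.support, p y ≤ p x := by
    have hne : c.support.toFinset.Nonempty := ⟨v, by simp⟩
    obtain ⟨x, hx, hx'⟩ := c.support.toFinset.exists_max_image p hne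
    exact ⟨x, by simpa using hx, fun y hy => hx' y (by simpa using hy)⟩
  let c' := c.rotate x hx
  have hc' : c'.IsCycle := hc.rotate hx
  have hsup : ∀ y ∈ c'.support, p y ≤ p x := by
    intro y hy
    exact hmax y ((Walk.mem_support_rotate_iff c x hx).1 hy)
  have hlen : 3 ≤ c'.length := hc'.three_le_length
  have hmemv : ∀ i, c'.getVert i ∈ c'.support := fun i => c'.getVert_mem_support i
  have hneq : ∀ i, 1 ≤ i → i < c'.length → c'.getVert i ≠ x := by
    intro i h1 h2 heq
    have h3 : c'.getVert i = c'.getVert c'.length := by rw [heq, Walk.getVert_length]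
    have := hc'.getVert_injOn (x₁ := i) (x₂ := c'.length) (by constructor <;> omega)
      (by constructor <;> omega) h3
    omega
  have hdown : ∀ y, (forest G p f).Adj x y → p y ≤ p x → Down G p f x y := by
    intro y hy hle
    rcases hy with h | h
    · exact h
    · exact absurd h.2.1 (by omega)
  have hy : Down G p f x (c'.getVert 1) := by
    apply hdown
    · have := c'.adj_getVert_succ (i := 0) (by omega)
      rwa [Walk.getVert_zero] at this
    · exact hsup _ (hmemv 1)
  have hz : Down G p f x (c'.getVert (c'.length - 1)) := by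
    apply hdown
    · have := c'.adj_getVert_succ (i := c'.length - 1) (by omega)
      have h2 : c'.length - 1 + 1 = c'.length := by omega
      rw [h2, Walk.getVert_length] at this
      exact this.symm
    · exact hsup _ (hmemv _)
  have hreach : ∀ i, i + 1 < c'.length →
      (restr G {w | p w ≤ p x ∧ w ≠ x}).Reachable (c'.getVert 1) (c'.getVert (i + 1)) := by
    intro i
    induction i with
    | zero => intro _; exact Reachable.refl _
    | succ i ih =>
      intro hi
      refine (ih (by omega)).trans (Adj.reachable ?_)
      refine ⟨forest_le (c'.adj_getVert_succ (i := i + 1) (by omega)), ?_, ?_⟩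
      · exact ⟨hsup _ (hmemv _), hneq _ (by omega) (by omega)⟩
      · exact ⟨hsup _ (hmemv _), hneq _ (by omega) (by omega)⟩
  have h1 := hreach (c'.length - 2) (by omega)
  have h2 : c'.length - 2 + 1 = c'.length - 1 := by omega
  rw [h2] at h1
  have h3 := key hp htop hy.1 hz.1 hy.2.1 hz.2.1 h1
  have h4 := hy.unique hz h3
  have h5 := hc'.getVert_injOn (x₁ := 1) (x₂ := c'.length - 1) (by constructor <;> omega)
      (by constructor <;> omega) h4
  omega

theorem forest_reach (hp : ∀ x y, G.Adj x y → p x ≠ p y)
    (hf : ∀ x y, G.Reachable x y → ∃ n, f n x = y) (u v : V) :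
    (forest G p f).Reachable u v ↔ G.Reachable u v := by
  classical
  constructor
  · exact fun h => h.mono forest_le
  have main : ∀ c, ∀ u v, (restr G {w | p w < c}).Reachable u v →
      (forest G p f).Reachable u v := by
    intro c
    induction c using Nat.strong_induction_on with
    | _ c ih =>
      have hedge : ∀ x y, G.Adj x y → p y < p x → p x < c → (forest G p f).Reachable x y := by
        intro x y hxy hlt hc
        have hex : ∃ n, Cand G p f x y n := by
          obtain ⟨n, hn⟩ := hf x y hxy.reachable
          refine ⟨n, ?_⟩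
          unfold Cand
          rw [hn]
          exact ⟨hxy, hlt, Reachable.refl _⟩
        obtain ⟨h1, h2, h3⟩ := Nat.find_spec hex
        have hd : Down G p f x (f (Nat.find hex) x) := by
          refine ⟨h1, h2, Nat.find hex, rfl, ?_⟩
          intro m hm hcand
          exact Nat.find_min hex hm ⟨hcand.1, hcand.2.1, hcand.2.2.trans h3⟩
        have h4 : (forest G p f).Adj x (f (Nat.find hex) x) := Or.inl hd
        exact h4.reachable.trans (ih (p x) hc _ _ h3)
      intro u v
      refine reach_of_adj_reach ?_
      rintro x y ⟨hxy, hx, hy⟩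
      rcases lt_trichotomy (p x) (p y) with h | h | h
      · exact (hedge y x hxy.symm h hy).symm
      · exact absurd h (hp x y hxy)
      · exact hedge x y hxy h hx
  refine reach_of_adj_reach ?_
  intro x y hxy
  refine main (max (p x) (p y) + 1) x y (Adj.reachable ⟨hxy, ?_, ?_⟩)
  · exact Nat.lt_succ_of_le (le_max_left _ _)
  · exact Nat.lt_succ_of_le (le_max_right _ _)

end Pool.Agent.Helper99.Treeing
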