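import Mathlib

/-!
# Combinatorics for Borel treeings inside graphings: exchange of forests
-/

namespace Pool.Agent.Helper99.Treeing

open SimpleGraph

variable {V : Type*}

lemma reach_closed {H : SimpleGraph V} {Z : Set V} (h : ∀ u v, H.Adj u v → u ∈ Z → v ∈ Z)
    {u v : V} (huv : H.Reachable u v) (hu : u ∈ Z) : v ∈ Z := by
  rw [reachable_iff_reflTransGen] at huv
  induction huv with
  | refl => exact hu
  | tail _ hbc ih => exact h _ _ hbc ih

lemma reach_of_adj_reach {H K : SimpleGraph V} (h : ∀ u v, H.Adj u v → K.Reachable u v)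
    {u v : V} (huv : H.Reachable u v) : K.Reachable u v :=
  reach_closed (Z := {w | K.Reachable u w}) (fun a b hab ha => ha.trans (h a b hab)) huv
    (Reachable.refl _)

lemma eq_of_reach_reach {T A B : SimpleGraph V} (hT : T.IsAcyclic) (hA : A ≤ T) (hB : B ≤ T)
    (hd : ∀ u v, A.Adj u v → ¬ B.Adj u v) {a b : V} (h1 : A.Reachable a b)
    (h2 : B.Reachable a b) : a = b := by
  classical
  obtain ⟨p, hp⟩ := h1.exists_isPath
  obtain ⟨q, hq⟩ := h2.exists_isPath
  have hp' : (p.mapLe hA).IsPath := (Walk.mapLe_isPath hA).2 hp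
  have hq' : (q.mapLe hB).IsPath := (Walk.mapLe_isPath hB).2 hq
  have heq : p.mapLe hA = q.mapLe hB :=
    congrArg Subtype.val (hT.path_unique ⟨_, hp'⟩ ⟨_, hq'⟩)
  have hedges : p.edges = q.edges := by
    have := congrArg Walk.edges heq
    simpa using this
  cases p with
  | nil => rfl
  | @cons _ c _ hac p' =>
    exfalso
    have hmem : s(a, c) ∈ q.edges := by
      rw [← hedges]; simp
    exact hd _ _ hac (q.adj_of_mem_edges hmem)

/-- The exchange lemma: `A` and `S` are forests with the same components, and `A ⊔ B` is a forest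
in which `A` and `B` have no common edge; then `S ⊔ B` is a forest. -/
theorem exchange {A B S : SimpleGraph V} (hT : (A ⊔ B).IsAcyclic)
    (hd : ∀ u v, A.Adj u v → ¬ B.Adj u v) (hS : S.IsAcyclic)
    (hr : ∀ u v, S.Reachable u v ↔ A.Reachable u v) : (S ⊔ B).IsAcyclic := by
  rw [isAcyclic_iff_forall_adj_isBridge]
  intro u v huv
  rw [isBridge_iff]
  intro hreach
  by_cases hB : B.Adj u v
  · -- a `B`-edge
    have hA : ¬ A.Adj u v := fun h => hd _ _ h hB
    have h1 : ((A ⊔ B).deleteEdges {s(u, v)}).Reachable u v := by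
      refine reach_of_adj_reach ?_ hreach
      intro x y hxy
      rw [deleteEdges_adj, sup_adj] at hxy
      obtain ⟨hxy, hne⟩ := hxy
      rcases hxy with hxy | hxy
      · have h2 : A.Reachable x y := (hr x y).1 hxy.reachable
        refine h2.mono ?_
        intro p q hpq
        rw [deleteEdges_adj, sup_adj]
        refine ⟨Or.inl hpq, ?_⟩
        intro hmem
        rw [Set.mem_singleton_iff, Sym2.eq_iff] at hmem
        rcases hmem with ⟨rfl, rfl⟩ | ⟨rfl, rfl⟩
        · exact hA hpq
        · exact hA hpq.symm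
      · apply Adj.reachable
        rw [deleteEdges_adj, sup_adj]
        exact ⟨Or.inr hxy, hne⟩
    have h2 := (isAcyclic_iff_forall_adj_isBridge.1 hT) (v := u) (w := v) (Or.inr hB)
    rw [isBridge_iff] at h2
    exact h2 h1
  · -- an `S`-edge
    have hSuv : S.Adj u v := by
      rcases (sup_adj _ _ _ _).1 huv with h | h
      · exact h
      · exact absurd h hB
    set S' := S.deleteEdges {s(u, v)} with hS'
    -- the edges of `A` in the component of `u`
    let AF : SimpleGraph V :=
      { Adj := fun x y => A.Adj x y ∧ A.Reachable u x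
        symm := ⟨fun x y h => ⟨h.1.symm, h.2.trans h.1.reachable⟩⟩
        loopless := ⟨fun x h => h.1.ne rfl⟩ }
    let T' : SimpleGraph V :=
      { Adj := fun x y => (A ⊔ B).Adj x y ∧ ¬ AF.Adj x y
        symm := ⟨fun x y h => ⟨h.1.symm, fun h' => h.2 h'.symm⟩⟩
        loopless := ⟨fun x h => h.1.ne rfl⟩ }
    have hAF : AF ≤ A ⊔ B := fun x y h => Or.inl h.1
    have hT' : T' ≤ A ⊔ B := fun x y h => h.1
    have hdis : ∀ x y, AF.Adj x y → ¬ T'.Adj x y := fun x y h h' => h'.2 h
    have hAFreach : ∀ x y, A.Reachable u x → A.Reachable x y → AF.Reachable x y := by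
      intro x y hx hxy
      have : y ∈ {w | A.Reachable u w ∧ AF.Reachable x w} := by
        refine reach_closed ?_ hxy ⟨hx, Reachable.refl _⟩
        rintro p q hpq ⟨h1, h2⟩
        exact ⟨h1.trans hpq.reachable, h2.trans (Adj.reachable (⟨hpq, h1⟩ : AF.Adj p q))⟩
      exact this.2
    have hout : ∀ x y, ¬ A.Reachable u x → A.Reachable x y → T'.Reachable x y := by
      intro x y hx hxy
      have : y ∈ {w | ¬ A.Reachable u w ∧ T'.Reachable x w} := by
        refine reach_closed ?_ hxy ⟨hx, Reachable.refl _⟩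
        rintro p q hpq ⟨h1, h2⟩
        refine ⟨fun h => h1 (h.trans hpq.reachable.symm), h2.trans (Adj.reachable ?_)⟩
        exact ⟨Or.inl hpq, fun h => h1 h.2⟩
      exact this.2
    have hS'S : S' ≤ S := deleteEdges_le _
    have hS'A : ∀ x y, S'.Reachable x y → A.Reachable x y :=
      fun x y h => (hr x y).1 (h.mono hS'S)
    have key : ∀ w, (∃ l, S'.Reachable u l ∧ T'.Reachable l w) → A.Reachable u w →
        S'.Reachable u w := by
      rintro w ⟨l, h1, h2⟩ hw
      have hl : A.Reachable u l := hS'A _ _ h1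
      have h3 : AF.Reachable l w := hAFreach l w hl (hl.symm.trans hw)
      have : l = w := eq_of_reach_reach hT hAF hT' hdis h3 h2
      exact this ▸ h1
    have hmem : v ∈ {w | ∃ l, S'.Reachable u l ∧ T'.Reachable l w} := by
      refine reach_closed ?_ hreach ⟨u, Reachable.refl _, Reachable.refl _⟩
      rintro w w' hww' ⟨l, h1, h2⟩
      rw [deleteEdges_adj, sup_adj] at hww'
      obtain ⟨hww', hne⟩ := hww'
      rcases hww' with h | h
      · have h' : S'.Adj w w' := by
          rw [hS', deleteEdges_adj]; exact ⟨h, hne⟩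
        by_cases hw : A.Reachable u w
        · have := key w ⟨l, h1, h2⟩ hw
          exact ⟨w', this.trans h'.reachable, Reachable.refl _⟩
        · exact ⟨l, h1, h2.trans (hout w w' hw ((hr w w').1 h.reachable))⟩
      · refine ⟨l, h1, h2.trans (Adj.reachable ?_)⟩
        exact ⟨Or.inr h, fun h' => hd _ _ h'.1 h⟩
    have hv : S'.Reachable u v := key v hmem ((hr u v).1 hSuv.reachable)
    have h2 := (isAcyclic_iff_forall_adj_isBridge.1 hS) hSuv
    rw [isBridge_iff] at h2
    exact h2 hv

/-- Exchange does not change the components. -/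
theorem exchange_reachable {A B S : SimpleGraph V}
    (hr : ∀ u v, S.Reachable u v ↔ A.Reachable u v) (u v : V) :
    (S ⊔ B).Reachable u v ↔ (A ⊔ B).Reachable u v := by
  constructor
  · refine reach_of_adj_reach ?_
    intro x y hxy
    rcases (sup_adj _ _ _ _).1 hxy with h | h
    · exact ((hr x y).1 h.reachable).mono le_sup_left
    · exact Adj.reachable (Or.inr h)
  · refine reach_of_adj_reach ?_
    intro x y hxy
    rcases (sup_adj _ _ _ _).1 hxy with h | h
    · exact ((hr x y).2 h.reachable).mono le_sup_left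
    · exact Adj.reachable (Or.inr h)

end Pool.Agent.Helper99.Treeing
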