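import Pool.Agent.Helper99.TreeingComb

/-!
# One exchange step on a family of disjoint finite blocks
-/

namespace Pool.Agent.Helper99.Treeing

open SimpleGraph

variable {V : Type*}

/-- A family of pairwise disjoint blocks with `k` points, `F_x = {g i x}`, `x ∈ D`. -/
structure Blocks (V : Type*) (k : ℕ) where
  D : Set V
  g : Fin k → V → V
  inj : ∀ x ∈ D, ∀ y ∈ D, ∀ i j, g i x = g j y → x = y ∧ i = j

open Classical in
/-- A spanning tree of `Q` containing `P ⊓ Q`. -/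
noncomputable def spanTree {k : ℕ} (P Q : SimpleGraph (Fin k)) : SimpleGraph (Fin k) :=
  if h : ∃ F : SimpleGraph (Fin k), P ⊓ Q ≤ F ∧ F ≤ Q ∧ F.IsTree then h.choose else ⊥

lemma spanTree_spec {k : ℕ} {P Q : SimpleGraph (Fin k)} (hP : P.IsAcyclic) (hQ : Q.Connected) :
    P ⊓ Q ≤ spanTree P Q ∧ spanTree P Q ≤ Q ∧ (spanTree P Q).IsTree := by
  have h : ∃ F : SimpleGraph (Fin k), P ⊓ Q ≤ F ∧ F ≤ Q ∧ F.IsTree :=
    hQ.exists_isTree_le_of_le_of_isAcyclic inf_le_right (hP.anti inf_le_left)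
  unfold spanTree
  rw [dif_pos h]
  exact h.choose_spec

variable {k : ℕ} (b : Blocks V k) (T G : SimpleGraph V)

/-- The trace of a graph on the block of `x`. -/
def Blocks.tr (T : SimpleGraph V) (x : V) : SimpleGraph (Fin k) := T.comap (fun i => b.g i x)

lemma Blocks.tr_adj (T : SimpleGraph V) (x : V) (i j : Fin k) :
    (b.tr T x).Adj i j ↔ T.Adj (b.g i x) (b.g j x) := Iff.rfl

/-- The block of `x` is processed. -/
def Blocks.Active (x : V) : Prop := x ∈ b.D ∧ (b.tr T x).Connected ∧ (b.tr G x).Connected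

def Blocks.InBlock (u v : V) : Prop :=
  ∃ x, b.Active T G x ∧ ∃ i j, u = b.g i x ∧ v = b.g j x

lemma Blocks.InBlock.symm {b : Blocks V k} {T G : SimpleGraph V} {u v : V}
    (h : b.InBlock T G u v) : b.InBlock T G v u := by
  obtain ⟨x, hx, i, j, hu, hv⟩ := h
  exact ⟨x, hx, j, i, hv, hu⟩

def Blocks.SG : SimpleGraph V where
  Adj u v := ∃ x, b.Active T G x ∧ ∃ i j, u = b.g i x ∧ v = b.g j x ∧
    (spanTree (b.tr T x) (b.tr G x)).Adj i j
  symm := ⟨by
    rintro u v ⟨x, hx, i, j, hu, hv, h⟩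
    exact ⟨x, hx, j, i, hv, hu, h.symm⟩⟩
  loopless := ⟨by
    rintro u ⟨x, hx, i, j, hu, hv, h⟩
    have := (b.inj x hx.1 x hx.1 i j (hu.symm.trans hv)).2
    exact h.ne this⟩

def Blocks.AG : SimpleGraph V where
  Adj u v := T.Adj u v ∧ b.InBlock T G u v
  symm := ⟨fun _ _ h => ⟨h.1.symm, h.2.symm⟩⟩
  loopless := ⟨fun _ h => h.1.ne rfl⟩

def Blocks.BG : SimpleGraph V where
  Adj u v := T.Adj u v ∧ ¬ b.InBlock T G u v
  symm := ⟨fun _ _ h => ⟨h.1.symm, fun h' => h.2 h'.symm⟩⟩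
  loopless := ⟨fun _ h => h.1.ne rfl⟩

/-- The exchange step. -/
def Blocks.step : SimpleGraph V := b.SG T G ⊔ b.BG T G

lemma Blocks.AB : b.AG T G ⊔ b.BG T G = T := by
  ext u v
  simp only [sup_adj, Blocks.AG, Blocks.BG]
  by_cases h : b.InBlock T G u v <;> simp [h]

variable {b T G}

lemma Blocks.tr_acyclic (hT : T.IsAcyclic) {x : V} (hx : x ∈ b.D) : (b.tr T x).IsAcyclic := by
  let e : Fin k ↪ V := ⟨fun i => b.g i x, fun i j h => (b.inj x hx x hx i j h).2⟩
  exact hT.of_comap e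

lemma Blocks.span_spec (hT : T.IsAcyclic) {x : V} (hx : b.Active T G x) :
    b.tr T x ⊓ b.tr G x ≤ spanTree (b.tr T x) (b.tr G x) ∧
    spanTree (b.tr T x) (b.tr G x) ≤ b.tr G x ∧ (spanTree (b.tr T x) (b.tr G x)).IsTree :=
  spanTree_spec (Blocks.tr_acyclic hT hx.1) hx.2.2

/-- transfer of reachability from an index graph -/
lemma reach_index {k : ℕ} {P : SimpleGraph (Fin k)} {H : SimpleGraph V} {g : Fin k → V}
    (h : ∀ i j, P.Adj i j → H.Adj (g i) (g j)) {i j : Fin k} (hij : P.Reachable i j) :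
    H.Reachable (g i) (g j) :=
  reach_closed (Z := {l | H.Reachable (g i) (g l)})
    (fun a c hac ha => Reachable.trans ha (h a c hac).reachable) hij (Reachable.refl _)

lemma Blocks.SA_reach (hT : T.IsAcyclic) (u v : V) :
    (b.SG T G).Reachable u v ↔ (b.AG T G).Reachable u v := by
  constructor
  · refine reach_of_adj_reach ?_
    rintro u v ⟨x, hx, i, j, hu, hv, h⟩
    rw [hu, hv]
    refine reach_index (P := b.tr T x) (g := fun i => b.g i x) ?_ (hx.2.1.preconnected i j)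
    intro l m hlm
    exact ⟨hlm, x, hx, l, m, rfl, rfl⟩
  · refine reach_of_adj_reach ?_
    rintro u v ⟨hT', x, hx, i, j, hu, hv⟩
    rw [hu, hv]
    have hsp := (Blocks.span_spec hT hx).2.2
    refine reach_index (P := spanTree (b.tr T x) (b.tr G x)) (g := fun i => b.g i x) ?_
      (hsp.connected.preconnected i j)
    intro l m hlm
    exact ⟨x, hx, l, m, rfl, rfl, hlm⟩

lemma Blocks.SG_acyclic (hT : T.IsAcyclic) : (b.SG T G).IsAcyclic := by
  rw [isAcyclic_iff_forall_adj_isBridge]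
  rintro u v ⟨x, hx, i, j, hu, hv, hij⟩
  rw [isBridge_iff]
  intro hreach
  have hsp := (Blocks.span_spec hT hx).2.2
  set F := spanTree (b.tr T x) (b.tr G x) with hF
  have hmem : v ∈ {w | ∃ l, w = b.g l x ∧ (F.deleteEdges {s(i, j)}).Reachable i l} := by
    refine reach_closed ?_ hreach ⟨i, hu, Reachable.refl _⟩
    rintro w w' hww' ⟨l, hl, hl'⟩
    rw [deleteEdges_adj] at hww'
    obtain ⟨⟨x', hx', l', m', hw, hw', hlm⟩, hne⟩ := hww'
    have h1 := b.inj x hx.1 x' hx'.1 l l' (hl.symm.trans hw)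
    obtain ⟨rfl, rfl⟩ := h1
    refine ⟨m', hw', hl'.trans (Adj.reachable ?_)⟩
    rw [deleteEdges_adj]
    refine ⟨hlm, ?_⟩
    intro hmem
    apply hne
    rw [Set.mem_singleton_iff, Sym2.eq_iff] at hmem ⊢
    rcases hmem with ⟨h1, h2⟩ | ⟨h1, h2⟩
    · left; rw [hl, hw', hu, hv, h1, h2]; exact ⟨rfl, rfl⟩
    · right; rw [hl, hw', hu, hv, h1, h2]; exact ⟨rfl, rfl⟩
  obtain ⟨l, hl, hl'⟩ := hmem
  have h1 := (b.inj x hx.1 x hx.1 j l (hv.symm.trans hl)).2
  rw [← h1] at hl'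
  have h2 := (isAcyclic_iff_forall_adj_isBridge.1 hsp.isAcyclic) hij
  rw [isBridge_iff] at h2
  exact h2 hl'

lemma Blocks.AB_disj (u v : V) (h : (b.AG T G).Adj u v) : ¬ (b.BG T G).Adj u v :=
  fun h' => h'.2 h.2

lemma Blocks.step_acyclic (hT : T.IsAcyclic) : (b.step T G).IsAcyclic := by
  refine exchange (A := b.AG T G) ?_ Blocks.AB_disj (Blocks.SG_acyclic hT) (Blocks.SA_reach hT)
  rw [Blocks.AB]
  exact hT

lemma Blocks.step_reach (hT : T.IsAcyclic) (u v : V) :
    (b.step T G).Reachable u v ↔ T.Reachable u v := by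
  have := exchange_reachable (B := b.BG T G) (Blocks.SA_reach (b := b) (G := G) hT) u v
  rw [Blocks.AB] at this
  exact this

/-- Edges of `G` are never removed. -/
lemma Blocks.step_keep (hT : T.IsAcyclic) {u v : V} (h : T.Adj u v) (hG : G.Adj u v) :
    (b.step T G).Adj u v := by
  by_cases hb : b.InBlock T G u v
  · obtain ⟨x, hx, i, j, hu, hv⟩ := hb
    left
    refine ⟨x, hx, i, j, hu, hv, (Blocks.span_spec hT hx).1 ?_⟩
    rw [inf_adj, Blocks.tr_adj, Blocks.tr_adj, ← hu, ← hv]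
    exact ⟨h, hG⟩
  · exact Or.inr ⟨h, hb⟩

/-- Edges outside `G` are never created. -/
lemma Blocks.step_old (hT : T.IsAcyclic) {u v : V} (h : (b.step T G).Adj u v) (hG : ¬ G.Adj u v) :
    T.Adj u v := by
  rcases h with h | h
  · obtain ⟨x, hx, i, j, hu, hv, hij⟩ := h
    exfalso
    apply hG
    rw [hu, hv]
    exact (Blocks.span_spec hT hx).2.1 hij
  · exact h.1

/-- A removed edge is replaced by a path of new edges in `G`. -/
lemma Blocks.step_removed (hT : T.IsAcyclic) {u v : V} (h : T.Adj u v)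
    (h' : ¬ (b.step T G).Adj u v) : (b.step T G ⊓ G).Reachable u v := by
  by_cases hb : b.InBlock T G u v
  · obtain ⟨x, hx, i, j, hu, hv⟩ := hb
    have hsp := Blocks.span_spec hT hx
    rw [hu, hv]
    refine reach_index (P := spanTree (b.tr T x) (b.tr G x)) (g := fun i => b.g i x) ?_
      (hsp.2.2.connected.preconnected i j)
    intro l m hlm
    exact ⟨Or.inl ⟨x, hx, l, m, rfl, rfl, hlm⟩, hsp.2.1 hlm⟩
  · exact absurd (Or.inr ⟨h, hb⟩) h'

/-- Inside a processed block all edges are in `G`. -/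
lemma Blocks.step_block (hT : T.IsAcyclic) {x : V} (hx : b.Active T G x) {i j : Fin k}
    (h : (b.step T G).Adj (b.g i x) (b.g j x)) : G.Adj (b.g i x) (b.g j x) := by
  rcases h with h | h
  · obtain ⟨y, hy, l, m, hu, hv, hlm⟩ := h
    rw [hu, hv]
    exact (Blocks.span_spec hT hy).2.1 hlm
  · exact absurd ⟨x, hx, i, j, rfl, rfl⟩ h.2

end Pool.Agent.Helper99.Treeing
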