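import Pool.Agent.Helper99.TreeingLimit

/-!
# From an edge condition on `G` to local double connectedness
-/

namespace Pool.Agent.Helper99.Treeing

open SimpleGraph

variable {V : Type*}

/-- `u` and `v` lie in a finite set on which both graphs are connected. -/
def Cov (T G : SimpleGraph V) (u v : V) : Prop :=
  ∃ R : Set V, R.Finite ∧ u ∈ R ∧ v ∈ R ∧ ConnOn T R ∧ ConnOn G R

variable {T G : SimpleGraph V}

lemma Cov.refl (u : V) : Cov T G u u :=
  ⟨{u}, Set.finite_singleton u, rfl, rfl, connOn_singleton _ _, connOn_singleton _ _⟩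

lemma Cov.symm {u v : V} (h : Cov T G u v) : Cov T G v u := by
  obtain ⟨R, h1, h2, h3, h4, h5⟩ := h
  exact ⟨R, h1, h3, h2, h4, h5⟩

lemma Cov.trans {u v w : V} (h : Cov T G u v) (h' : Cov T G v w) : Cov T G u w := by
  obtain ⟨R, h1, h2, h3, h4, h5⟩ := h
  obtain ⟨R', h1', h2', h3', h4', h5'⟩ := h'
  exact ⟨R ∪ R', h1.union h1', Or.inl h2, Or.inr h3', h4.union h4' h3 h2', h5.union h5' h3 h2'⟩

lemma Cov.join {a b w w' : V} (h : Cov T G w a) (h' : Cov T G b w') (hT : T.Adj a b)
    (hG : G.Adj w w') : Cov T G a b := by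
  obtain ⟨R, h1, h2, h3, h4, h5⟩ := h
  obtain ⟨R', h1', h2', h3', h4', h5'⟩ := h'
  exact ⟨R ∪ R', h1.union h1', Or.inl h3, Or.inr h2', h4.join h4' h3 h2' hT,
    h5.join h5' h2 h3' hG⟩

lemma Cov.of_adj {u v : V} (h : T.Adj u v) (h' : G.Adj u v) : Cov T G u v :=
  Cov.join (Cov.refl u) (Cov.refl v) h h'

/-- Chains with `n` edges of `G` between covered pairs. -/
def Rch (T G : SimpleGraph V) : ℕ → V → V → Prop
  | 0, u, v => Cov T G u v
  | n + 1, u, v => ∃ w w', Rch T G n u w ∧ G.Adj w w' ∧ Cov T G w' v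

lemma Rch.right {n : ℕ} {u v v' : V} (h : Rch T G n u v) (h' : Cov T G v v') :
    Rch T G n u v' := by
  cases n with
  | zero => exact Cov.trans h h'
  | succ n =>
    obtain ⟨w, w', h1, h2, h3⟩ := h
    exact ⟨w, w', h1, h2, h3.trans h'⟩

lemma Rch.left {n : ℕ} {u u' v : V} (h : Rch T G n u v) (h' : Cov T G u' u) :
    Rch T G n u' v := by
  induction n generalizing v with
  | zero => exact Cov.trans h' h
  | succ n ih =>
    obtain ⟨w, w', h1, h2, h3⟩ := h
    exact ⟨w, w', ih h1, h2, h3⟩

lemma exists_rch {u v : V} (h : G.Reachable u v) : ∃ n, Rch T G n u v := by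
  rw [reachable_iff_reflTransGen] at h
  induction h with
  | refl => exact ⟨0, Cov.refl u⟩
  | @tail a c _ hbc ih =>
    obtain ⟨n, hn⟩ := ih
    exact ⟨n + 1, a, c, hn, hbc, Cov.refl c⟩

/-- Prepending one edge. -/
lemma Rch.cons {n : ℕ} {u w w' v : V} (h1 : Cov T G u w) (h2 : G.Adj w w')
    (h3 : Rch T G n w' v) : Rch T G (n + 1) u v := by
  induction n generalizing v with
  | zero => exact ⟨w, w', h1, h2, h3⟩
  | succ n ih =>
    obtain ⟨x, x', h4, h5, h6⟩ := h3
    exact ⟨x, x', ih h4, h5, h6⟩

lemma Rch.rev {n : ℕ} {u v : V} (h : Rch T G n u v) : Rch T G n v u := by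
  induction n generalizing v with
  | zero => exact Cov.symm h
  | succ n ih =>
    obtain ⟨w, w', h1, h2, h3⟩ := h
    exact Rch.cons h3.symm h2.symm (ih h1)

/-- Splitting a chain at an edge leaving a set which is closed under `Cov`. -/
lemma Rch.split {n : ℕ} {u v : V} (h : Rch T G n u v) {A : Set V}
    (hA : ∀ x y, Cov T G x y → x ∈ A → y ∈ A) (hu : u ∈ A) (hv : v ∉ A) :
    ∃ i j w w', i < n ∧ j < n ∧ Rch T G i u w ∧ G.Adj w w' ∧ Rch T G j w' v ∧ w ∈ A ∧ w' ∉ A := by
  induction n generalizing v with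
  | zero => exact absurd (hA _ _ h hu) hv
  | succ n ih =>
    obtain ⟨x, x', h1, h2, h3⟩ := h
    by_cases hx : x ∈ A
    · have hx' : x' ∉ A := fun h => hv (hA _ _ h3 h)
      refine ⟨n, 0, x, x', Nat.lt_succ_self n, Nat.succ_pos n, h1, h2, h3, hx, hx'⟩
    · obtain ⟨i, j, w, w', hi, hj, h4, h5, h6, h7, h8⟩ := ih h1 hx
      exact ⟨i, j + 1, w, w', by omega, by omega, h4, h5, ⟨x, x', h6, h2, h3⟩, h7, h8⟩

/-- The ends of every edge of `G` are joined by a `T`-path with at most two uncovered edges. -/
def EdgeCond (T G : SimpleGraph V) : Prop :=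
  ∀ u v, G.Adj u v → ∃ c d e h, Cov T G u c ∧ (T.Adj c d ∨ c = d) ∧ Cov T G d e ∧
    (T.Adj e h ∨ e = h) ∧ Cov T G h v

/-- Under the edge condition all edges of `T` are covered. -/
theorem cov_of_edgeCond (hT : T.IsAcyclic) (hTG : ∀ u v, T.Adj u v → G.Reachable u v)
    (hec : EdgeCond T G) : ∀ a b, T.Adj a b → Cov T G a b := by
  have main : ∀ n, ∀ a b, T.Adj a b → Rch T G n a b → Cov T G a b := by
    intro n
    induction n using Nat.strong_induction_on with
    | _ n ih =>
      intro a b hab hr
      by_contra hcov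
      let A : Set V := {w | (T.deleteEdges {s(a, b)}).Reachable a w}
      have haA : a ∈ A := Reachable.refl _
      have hbA : b ∉ A := by
        have := (isAcyclic_iff_forall_adj_isBridge.1 hT) hab
        rw [isBridge_iff] at this
        exact this
      -- edges of `T` leaving `A`
      have hcross : ∀ x y, T.Adj x y → x ∈ A → y ∉ A → x = a ∧ y = b := by
        intro x y hxy hx hy
        by_cases hs : s(x, y) = s(a, b)
        · rw [Sym2.eq_iff] at hs
          rcases hs with hs | ⟨h1, h2⟩
          · exact hs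
          · rw [h1] at hx; exact absurd hx hbA
        · exfalso
          apply hy
          refine Reachable.trans (show (T.deleteEdges {s(a, b)}).Reachable a x from hx)
            (Adj.reachable ?_)
          rw [deleteEdges_adj]
          exact ⟨hxy, hs⟩
      -- `A` is closed under `Cov`
      have hA : ∀ x y, Cov T G x y → x ∈ A → y ∈ A := by
        rintro x y ⟨R, hR, hx, hy, hRT, hRG⟩ hxA
        by_contra hyA
        have hex : ∃ p q, T.Adj p q ∧ p ∈ R ∧ q ∈ R ∧ p ∈ A ∧ q ∉ A := by
          by_contra hno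
          push Not at hno
          apply hyA
          have := reach_closed (H := restr T R) (Z := A)
            (fun p q hpq hp => hno p q hpq.1 hpq.2.1 hpq.2.2 hp) (hRT x hx y hy) hxA
          exact this
        obtain ⟨p, q, hpq, hp, hq, hpA, hqA⟩ := hex
        obtain ⟨rfl, rfl⟩ := hcross p q hpq hpA hqA
        exact hcov ⟨R, hR, hp, hq, hRT, hRG⟩
      have hA' : ∀ x y, Cov T G x y → x ∉ A → y ∉ A := fun x y h hx hy => hx (hA y x h.symm hy)
      obtain ⟨i, j, w, w', hi, hj, h1, h2, h3, hw, hw'⟩ := hr.split hA haA hbA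
      obtain ⟨c, d, e, h, hc, hcd, hde, heh, hhw⟩ := hec w w' h2
      have hcA : c ∈ A := hA _ _ hc hw
      have hhA : h ∉ A := hA' _ _ hhw.symm hw'
      by_cases hdA : d ∈ A
      · -- the crossing edge is `(e, h)`
        have heA : e ∈ A := hA _ _ hde hdA
        have heh' : T.Adj e h := by
          rcases heh with h4 | h4
          · exact h4
          · rw [h4] at heA; exact absurd heA hhA
        obtain ⟨rfl, rfl⟩ := hcross e h heh' heA hhA
        -- `w ≈ c`, `c – d`, `d ≈ a`
        have hcov' : Cov T G c d := by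
          rcases hcd with h4 | h4
          · have h5 : Rch T G i d c := (h1.left hde).right hc
            exact (ih i hi d c h4.symm h5).symm
          · rw [h4]; exact Cov.refl d
        exact hcov (Cov.join ((hc.trans hcov').trans hde) hhw heh' h2)
      · have hcd' : T.Adj c d := by
          rcases hcd with h4 | h4
          · exact h4
          · rw [h4] at hcA; exact absurd hcA hdA
        obtain ⟨rfl, rfl⟩ := hcross c d hcd' hcA hdA
        have hcov' : Cov T G e h := by
          rcases heh with h4 | h4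
          · have h5 : Rch T G j h e := (h3.left hhw).right hde
            exact (ih j hj h e h4.symm h5).symm
          · rw [h4]; exact Cov.refl h
        exact hcov (Cov.join hc ((hde.trans hcov').trans hhw) hcd' h2)
  intro a b hab
  obtain ⟨n, hn⟩ := exists_rch (T := T) (hTG a b hab)
  exact main n a b hab hn

/-- `T`-chains with `n` possibly uncovered edges. -/
def TCh (T G : SimpleGraph V) : ℕ → V → V → Prop
  | 0, u, v => Cov T G u v
  | n + 1, u, v => ∃ c d, Cov T G u c ∧ (T.Adj c d ∨ c = d) ∧ TCh T G n d v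

lemma TCh.left {n : ℕ} {u u' v : V} (h : TCh T G n u v) (h' : Cov T G u' u) :
    TCh T G n u' v := by
  cases n with
  | zero => exact Cov.trans h' h
  | succ n =>
    obtain ⟨c, d, h1, h2⟩ := h
    exact ⟨c, d, h'.trans h1, h2⟩

lemma TCh.mono {n : ℕ} {u v : V} (h : TCh T G n u v) : TCh T G (n + 1) u v :=
  ⟨u, u, Cov.refl u, Or.inr rfl, h⟩

open Classical in
lemma tch_of_walk {u v : V} (p : T.Walk u v) (n : ℕ)
    (hp : p.darts.countP (fun d => ¬ Cov T G d.fst d.snd) ≤ n) : TCh T G n u v := by
  induction p generalizing n with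
  | nil =>
    clear hp
    induction n with
    | zero => exact Cov.refl _
    | succ n ih => exact ih.mono
  | @cons u w v h p ih =>
    rw [Walk.darts_cons, List.countP_cons] at hp
    by_cases hc : Cov T G u w
    · simp only [hc, not_true_eq_false, decide_false, Bool.false_eq_true, if_false,
        add_zero] at hp
      exact (ih n hp).left hc
    · simp only [hc, not_false_eq_true, decide_true, if_true] at hp
      cases n with
      | zero => omega
      | succ n => exact ⟨u, w, Cov.refl u, Or.inl h, ih n (by omega)⟩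

open Classical in
lemma edgeCond_of_walk (h : ∀ u v, G.Adj u v → ∃ p : T.Walk u v,
    p.darts.countP (fun d => ¬ Cov T G d.fst d.snd) ≤ 2) : EdgeCond T G := by
  intro u v huv
  obtain ⟨p, hp⟩ := h u v huv
  obtain ⟨c, d, h1, h2, e, h, h3, h4, h5⟩ := tch_of_walk p 2 hp
  exact ⟨c, d, e, h, h1, h2, h3, h4, h5⟩

end Pool.Agent.Helper99.Treeing
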